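import Pool.Agent.Run7.h980.WQ.ConcQ

/-!
Profiles (piece ProfQ of project WQ).
-/

set_option autoImplicit false

open MeasureTheory Set Filter Topology
open scoped ContDiff ComplexConjugate NNReal

namespace Pool.Agent.Run7.h980.WQ

open H459R3.NS Pool.Agent.Run7.h782 Pool.Agent.Run7.h782.GD Pool.Agent.Run7.h782.GS
open Pool.Agent.Run7.h969.GG Pool.Agent.Run7.h980.WS Pool.Agent.Run7.h782.WQ

theorem rn_nonneg (r : Mf) (x : V) : 0 ≤ rn r x :=
  Finset.sum_nonneg fun _ _ => Finset.sum_nonneg fun _ _ => norm_nonneg _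

theorem rn_cont {r : Mf} {Z : Finset K3} (hZ : ∀ i j, ∀ k ∉ Z, r i j k = 0) :
    Continuous (rn r) := by
  unfold rn
  refine continuous_finsetSum _ fun i _ => continuous_finsetSum _ fun j _ => ?_
  exact (S_continuous (summable_of_ne_finset_zero (s := Z) fun k hk => hZ i j k hk)).norm

theorem add_rpow_le {a b p : ℝ} (ha : 0 ≤ a) (hb : 0 ≤ b) (hp : 0 < p) :
    (a + b) ^ p ≤ 2 ^ p * (a ^ p + b ^ p) := by
  have h1 : (a + b) ^ p ≤ (2 * max a b) ^ p := by
    refine Real.rpow_le_rpow (by positivity) ?_ hp.le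
    have := le_max_left a b
    have := le_max_right a b
    linarith
  rw [Real.mul_rpow (by norm_num) (ha.trans (le_max_left a b))] at h1
  refine h1.trans (mul_le_mul_of_nonneg_left ?_ (by positivity))
  have h2 : 0 ≤ a ^ p := by positivity
  have h3 : 0 ≤ b ^ p := by positivity
  rcases max_choice a b with h | h <;> rw [h] <;> linarith

theorem cube_real : (volume : Measure V).real cube = 1 := by
  rw [Measure.real, volume_cube]
  simp

/-- The moments of the profiles. -/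
theorem fp_le {C θ p : ℝ} (hC : 0 < C) (hθ : 0 < θ) (hp : 0 < p) {r : Mf} {Z : Finset K3}
    (hZ : ∀ i j, ∀ k ∉ Z, r i j k = 0) {s : Cf} {P : Finset K3} (hP : ∀ p ∉ P, s p = 0)
    (h : ∀ x, fn s x ^ 2 ≤ C * (rn r x + θ)) :
    fp p s ≤ (2 * C) ^ (p / 2) * (rp (p / 2) r + θ ^ (p / 2)) := by
  have hp2 : 0 < p / 2 := by positivity
  have key : ∀ x ∈ cube, fn s x ^ p ≤ (2 * C) ^ (p / 2) * (rn r x ^ (p / 2) + θ ^ (p / 2)) := by
    intro x _
    have h0 := rn_nonneg r x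
    have e : fn s x ^ p = (fn s x ^ 2) ^ (p / 2) := by
      rw [← Real.rpow_natCast, ← Real.rpow_mul (fn_nonneg s x)]
      congr 1
      push_cast
      ring
    rw [e]
    refine (Real.rpow_le_rpow (sq_nonneg _) (h x) hp2.le).trans ?_
    rw [Real.mul_rpow hC.le (by positivity)]
    calc C ^ (p / 2) * (rn r x + θ) ^ (p / 2)
        ≤ C ^ (p / 2) * (2 ^ (p / 2) * (rn r x ^ (p / 2) + θ ^ (p / 2))) :=
          mul_le_mul_of_nonneg_left (add_rpow_le h0 hθ.le hp2) (by positivity)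
      _ = _ := by
          rw [Real.mul_rpow (by norm_num) hC.le]
          ring
  have c1 : Continuous fun x => fn s x ^ p := (fn_cont hP).rpow_const fun _ => Or.inr hp.le
  have c2 : Continuous fun x => rn r x ^ (p / 2) :=
    (rn_cont hZ).rpow_const fun _ => Or.inr hp2.le
  have c3 : Continuous fun x => (2 * C) ^ (p / 2) * (rn r x ^ (p / 2) + θ ^ (p / 2)) := by
    fun_prop
  have h1 := setIntegral_mono_on (integrableOn_cube c1) (integrableOn_cube c3)
    measurableSet_Icc key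
  refine h1.trans (le_of_eq ?_)
  rw [integral_const_mul, integral_add (integrableOn_cube c2) (integrableOn_cube continuous_const),
    setIntegral_const, cube_real, one_smul]
  rfl

/-- **Piece ProfQ.** -/
theorem profQ (hGeo : StmGeoQ) (hConc : StmConcQ) : StmProfQ := by
  classical
  obtain ⟨C, hC, geo⟩ := hGeo
  obtain ⟨D, hD, conc⟩ := hConc
  set G : ℝ := 2 * C + 1 with hG
  have hG1 : 1 ≤ G := by linarith
  set Cp : ℝ → ℝ := fun p => 9 * (D p * G ^ (p / 2)) with hCp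
  have hCp0 : ∀ p, 0 < Cp p := fun p => by
    have := hD p
    have : 0 < G := by linarith
    simp only [hCp]
    positivity
  refine ⟨Cp, hCp0, ?_⟩
  intro κ hκ hκ1 E hE Z r hZ hr θ hθ
  -- the choice of the small parameter
  obtain ⟨θ₁, hθ₁0, hθ₁1, hθ₁2⟩ : ∃ θ₁ : ℝ, 0 < θ₁ ∧ θ₁ ≤ θ / 2 ∧
      ∀ p ∈ E, Cp p * κ ^ (1 - p / 2) * θ₁ ^ (p / 2) ≤ θ / 2 := by
    have h1 : ∀ p ∈ E, ∀ᶠ t : ℝ in 𝓝[>] 0, Cp p * κ ^ (1 - p / 2) * t ^ (p / 2) ≤ θ / 2 := by
      intro p hp
      have hp2 : 0 < p / 2 := by have := hE p hp; positivity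
      have h2 : Tendsto (fun t : ℝ => Cp p * κ ^ (1 - p / 2) * t ^ (p / 2)) (𝓝[>] 0)
          (𝓝 (Cp p * κ ^ (1 - p / 2) * 0 ^ (p / 2))) :=
        (((Real.continuous_rpow_const hp2.le).tendsto 0).mono_left nhdsWithin_le_nhds).const_mul _
      rw [Real.zero_rpow hp2.ne', mul_zero] at h2
      exact h2.eventually_le_const (half_pos hθ)
    have h3 : ∀ᶠ t : ℝ in 𝓝[>] 0, ∀ p ∈ E, Cp p * κ ^ (1 - p / 2) * t ^ (p / 2) ≤ θ / 2 :=
      (Filter.eventually_all_finset E).2 h1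
    have h4 : ∀ᶠ t : ℝ in 𝓝[>] 0, t ≤ θ / 2 :=
      (tendsto_id.mono_left nhdsWithin_le_nhds).eventually_le_const (half_pos hθ)
    obtain ⟨t, ⟨h5, h6⟩, h7⟩ := ((h3.and h4).and self_mem_nhdsWithin).exists
    exact ⟨t, h7, h6, h5⟩
  obtain ⟨J, n, s, P, hJ, hJ9, a1, a2, a3, a4, a5, a6⟩ := geo Z r hZ hr θ₁ hθ₁0
  have hJr : (0 : ℝ) < J := by exact_mod_cast hJ
  have hJ9r : (J : ℝ) ≤ 9 := by exact_mod_cast hJ9
  have hη : 0 < θ / (2 * J) := by positivity
  have hsum : ∑ _j : Fin J, θ / (2 * J) = θ / 2 := by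
    rw [Finset.sum_const, Finset.card_univ, Fintype.card_fin, nsmul_eq_mul]
    field_simp
  choose s' P' b1 b2 b3 b4 b5 using fun j : Fin J =>
    conc κ hκ hκ1 E hE (n j) (s j) P (a1 j) (a2 j) (a3 j) (a4 j) (θ / (2 * J)) hη
  refine ⟨J, n, s', Finset.univ.biUnion P', hJ, hJ9, a1, fun j p hp => b1 j p fun h' => hp
    (Finset.mem_biUnion.2 ⟨j, Finset.mem_univ _, h'⟩), b2, b3, ?_, fun B => ?_⟩
  · intro p hp
    have hp0 := hE p hp
    have hrp : 0 ≤ rp (p / 2) r := integral_nonneg fun x => by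
      have := rn_nonneg r x
      positivity
    have hD0 : 0 < D p := hD p
    have hG0 : 0 < G := by linarith
    have h1 : ∀ j, fp p (s' j) ≤ D p * κ ^ (1 - p / 2)
        * (G ^ (p / 2) * (rp (p / 2) r + θ₁ ^ (p / 2))) + θ / (2 * J) := by
      intro j
      refine (b4 j p hp).trans (add_le_add (mul_le_mul_of_nonneg_left ?_ (by positivity)) le_rfl)
      refine (fp_le hC hθ₁0 hp0 hZ (a2 j) (a5 j)).trans ?_
      refine mul_le_mul_of_nonneg_right ?_ (by positivity)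
      exact Real.rpow_le_rpow (by positivity) (by linarith) (by positivity)
    have h2 := Finset.sum_le_sum fun j (_ : j ∈ Finset.univ) => h1 j
    rw [Finset.sum_add_distrib, hsum, Finset.sum_const, Finset.card_univ, Fintype.card_fin,
      nsmul_eq_mul] at h2
    refine h2.trans ?_
    have h3 : (J : ℝ) * (D p * κ ^ (1 - p / 2)
        * (G ^ (p / 2) * (rp (p / 2) r + θ₁ ^ (p / 2))))
        ≤ 9 * (D p * κ ^ (1 - p / 2)
        * (G ^ (p / 2) * (rp (p / 2) r + θ₁ ^ (p / 2)))) :=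
      mul_le_mul_of_nonneg_right hJ9r (by positivity)
    have h4 : 9 * (D p * κ ^ (1 - p / 2)
        * (G ^ (p / 2) * (rp (p / 2) r + θ₁ ^ (p / 2))))
        = Cp p * κ ^ (1 - p / 2) * rp (p / 2) r + Cp p * κ ^ (1 - p / 2) * θ₁ ^ (p / 2) := by
      simp only [hCp]
      ring
    have h5 := hθ₁2 p hp
    linarith
  · have key : ∀ k, ‖dvr r k - ∑ j, nl (s' j) (s' j) k‖ / len k
        ≤ ‖dvr r k - ∑ j, nl (s j) (s j) k‖ / len k
          + ∑ j, ‖nl (s' j) (s' j) k - nl (s j) (s j) k‖ / len k := by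
      intro k
      have e : dvr r k - ∑ j, nl (s' j) (s' j) k = (dvr r k - ∑ j, nl (s j) (s j) k)
          - ∑ j, (nl (s' j) (s' j) k - nl (s j) (s j) k) := by
        rw [Finset.sum_sub_distrib]
        abel
      rw [← Finset.sum_div, ← add_div, e]
      refine div_le_div_of_nonneg_right ?_ (len_nonneg k)
      exact (norm_sub_le _ _).trans (add_le_add le_rfl (norm_sum_le _ _))
    calc ∑ k ∈ B, ‖dvr r k - ∑ j, nl (s' j) (s' j) k‖ / len k
        ≤ ∑ k ∈ B, (‖dvr r k - ∑ j, nl (s j) (s j) k‖ / len k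
          + ∑ j, ‖nl (s' j) (s' j) k - nl (s j) (s j) k‖ / len k) :=
          Finset.sum_le_sum fun k _ => key k
      _ = ∑ k ∈ B, ‖dvr r k - ∑ j, nl (s j) (s j) k‖ / len k
          + ∑ j, ∑ k ∈ B, ‖nl (s' j) (s' j) k - nl (s j) (s j) k‖ / len k := by
          rw [Finset.sum_add_distrib]
          congr 1
          exact Finset.sum_comm
      _ ≤ θ₁ + ∑ _j : Fin J, θ / (2 * J) :=
          add_le_add (a6 B) (Finset.sum_le_sum fun j _ => b5 j B)
      _ ≤ θ := by rw [hsum]; linarith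

end Pool.Agent.Run7.h980.WQ
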