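import Pool.Agent.Run7.h811.WS.WkH
import Pool.Agent.Run7.h782.WQ.Defs

/-!
The very weak formulation (piece VWQ of project WQ).
-/

set_option autoImplicit false

open MeasureTheory Set Filter Topology
open scoped ContDiff ENNReal

namespace Pool.Agent.Run7.h980.WQ

open H459R3.NS Pool.Agent.Run7.h782.GS Run7.h475.WS Pool.Agent.Run7.h744.WS
open Pool.Agent.Run7.h782.WQ Pool.Agent.Run7.h811.WS

section

variable {ν : ℝ} {u : ℝ → V → V} {p : ℝ → V → ℝ} {φ : V → V} {T : ℝ}

theorem box_meas (T : ℝ) : MeasurableSet (Ioo (0 : ℝ) T ×ˢ cube) := measurableSet_Ioo.prod cube_meas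

theorem mul_int {f ψ : ℝ × V → ℝ} (hf : IntegrableOn f (Ioo 0 T ×ˢ cube)) (hψ : Continuous ψ) :
    IntegrableOn (fun z => f z * ψ z) (Ioo 0 T ×ˢ cube) :=
  hf.mul_continuousOn_of_subset hψ.continuousOn (box_meas T) (isCompact_Icc.prod cube_compact)
    (prod_mono Ioo_subset_Icc_self le_rfl)

theorem lin_int (hu : OSol ν u p) (hL : ∀ (T : ℝ) (i : Fin 3),
    IntegrableOn (fun z : ℝ × V => u z.1 z.2 i ^ 2) (Ioc 0 T ×ˢ cube)) (T : ℝ) (i : Fin 3) :
    IntegrableOn (fun z : ℝ × V => u z.1 z.2 i) (Ioo 0 T ×ˢ cube) := by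
  have hsub : Ioo (0 : ℝ) T ×ˢ cube ⊆ Ioi 0 ×ˢ univ := fun z hz => ⟨hz.1.1, mem_univ _⟩
  have hfin : volume (Ioo (0 : ℝ) T ×ˢ cube) < ⊤ := by
    rw [Measure.volume_eq_prod, Measure.prod_prod]
    exact ENNReal.mul_lt_top measure_Ioo_lt_top cube_compact.measure_lt_top
  have hc : IntegrableOn (fun _ : ℝ × V => (1 : ℝ)) (Ioo (0 : ℝ) T ×ˢ cube) :=
    integrableOn_const hfin.ne
  refine Integrable.mono' (((hL T i).mono_set (prod_mono Ioo_subset_Ioc_self le_rfl)).add hc)
    (((comp_smooth hu i).continuousOn.mono hsub).aestronglyMeasurable (box_meas T)) ?_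
  refine Eventually.of_forall fun z => ?_
  rw [Real.norm_eq_abs]
  show |u z.1 z.2 i| ≤ u z.1 z.2 i ^ 2 + 1
  nlinarith [sq_nonneg (|u z.1 z.2 i| - 1), sq_abs (u z.1 z.2 i)]

/-- the integrals over the cell are continuous in time -/
theorem slice_cont {f : ℝ × V → ℝ} (hf : ContinuousOn f (Ioi 0 ×ˢ univ)) :
    ContinuousOn (fun s => ∫ x in cube, f (s, x)) (Ioi 0) := by
  rw [continuousOn_iff_continuous_domRestrict]
  haveI : LocallyCompactSpace (Ioi (0 : ℝ)) := isOpen_Ioi.locallyCompactSpace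
  have h : Continuous (Function.uncurry fun (s : Ioi (0 : ℝ)) (x : V) => f ((s : ℝ), x)) := by
    refine hf.comp_continuous (f := fun z : Ioi (0 : ℝ) × V => (((z.1 : ℝ), z.2) : ℝ × V))
      (by fun_prop) fun z => ⟨z.1.2, mem_univ _⟩
  exact continuous_parametric_integral_of_continuous h cube_compact

theorem uφ_cont (hu : OSol ν u p) (hφ : ContDiff ℝ ∞ φ) :
    ContinuousOn (fun z : ℝ × V => ∑ i, u z.1 z.2 i * φ z.2 i) (Ioi 0 ×ˢ univ) := by
  refine continuousOn_finsetSum _ fun i _ => (comp_smooth hu i).continuousOn.mul ?_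
  exact ((contDiff_pi.1 hφ i).continuous.comp continuous_snd).continuousOn

theorem int_slice {f : ℝ × V → ℝ} (hf : ContinuousOn f (Ioi 0 ×ˢ univ)) {t : ℝ} (ht : 0 < t) :
    IntegrableOn (fun x => f (t, x)) cube := by
  have h : Continuous fun x : V => f (t, x) :=
    hf.comp_continuous (f := fun x : V => ((t, x) : ℝ × V)) (by fun_prop)
      fun x => ⟨ht, mem_univ _⟩
  exact h.continuousOn.integrableOn_compact cube_compact

/-- The weak formulation with test functions depending on time. -/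
theorem weak_time (hu : OSol ν u p) (hL : ∀ (T : ℝ) (i : Fin 3),
      IntegrableOn (fun z : ℝ × V => u z.1 z.2 i ^ 2) (Ioc 0 T ×ˢ cube))
    (hφ : ContDiff ℝ ∞ φ) (hp : Per φ) (hd : ∀ x, ∑ i, pd i (fun y => φ y i) x = 0)
    {l : ℝ} (hl : Tendsto (fun t => ∑ i, ∫ x in cube, u t x i * φ x i) (𝓝[>] 0) (𝓝 l))
    {χ : ℝ → ℝ} (hχ : ContDiff ℝ ∞ χ) (hχT : χ T = 0) (hT : 0 < T) :
    χ 0 * l + ∫ z in Ioo 0 T ×ˢ cube, (deriv χ z.1 * (∑ i, u z.1 z.2 i * φ z.2 i)
      + χ z.1 * gg ν u φ z) = 0 := by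
  have hg := gg_int hu hφ hp hL T
  have hgo : IntegrableOn (gg ν u φ) (Ioo 0 T ×ˢ cube) :=
    hg.mono_set (prod_mono Ioo_subset_Ioc_self le_rfl)
  have hχc : Continuous χ := hχ.continuous
  have hχd : Continuous (deriv χ) := hχ.continuous_deriv (by norm_cast)
  have i1 : IntegrableOn (fun z : ℝ × V => deriv χ z.1 * (∑ i, u z.1 z.2 i * φ z.2 i))
      (Ioo 0 T ×ˢ cube) := by
    have h1 : IntegrableOn (fun z : ℝ × V => ∑ i, u z.1 z.2 i * φ z.2 i) (Ioo 0 T ×ˢ cube) :=
      integrable_finsetSum _ fun i _ => mul_int (ψ := fun z : ℝ × V => φ z.2 i) (lin_int hu hL T i)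
        ((contDiff_pi.1 hφ i).continuous.comp continuous_snd)
    refine (mul_int (ψ := fun z : ℝ × V => deriv χ z.1) h1 (hχd.comp continuous_fst)).congr ?_
    exact Eventually.of_forall fun z => mul_comm _ _
  have i2 : IntegrableOn (fun z : ℝ × V => χ z.1 * gg ν u φ z) (Ioo 0 T ×ˢ cube) := by
    refine (mul_int (ψ := fun z : ℝ × V => χ z.1) hgo (hχc.comp continuous_fst)).congr ?_
    exact Eventually.of_forall fun z => mul_comm _ _
  have i12 := i1.add i2
  -- the functions of time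
  set g : ℝ → ℝ := fun s => ∫ x in cube, gg ν u φ (s, x) with hgdef
  have hgc : ContinuousOn g (Ioi 0) := slice_cont (gg_cont hu hφ hp)
  have hgi : IntegrableOn g (Ioc 0 T) := by
    have h1 : Integrable (gg ν u φ) ((volume.restrict (Ioc 0 T)).prod (volume.restrict cube)) := by
      rw [Measure.prod_restrict]
      exact hg
    exact h1.integral_prod_left
  have hgii : IntervalIntegrable g volume 0 T :=
    (intervalIntegrable_iff_integrableOn_Ioc_of_le hT.le).2 hgi
  set G : ℝ → ℝ := fun t => l + ∫ s in (0 : ℝ)..t, g s with hG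
  have hGt : ∀ t, 0 < t → t ≤ T → ∫ x in cube, ∑ i, u t x i * φ x i = G t := by
    intro t ht htT
    have h1 := wkH ν u p hu hL φ hφ hp hd l hl t ht
    rw [h1]
    show l + ∫ z in Ioc 0 t ×ˢ cube, gg ν u φ z = _
    have h2 : IntegrableOn (gg ν u φ) (Ioc 0 t ×ˢ cube) :=
      hg.mono_set (prod_mono (Ioc_subset_Ioc_right htT) le_rfl)
    rw [hG]
    simp only
    rw [intervalIntegral.integral_of_le ht.le]
    rw [Measure.volume_eq_prod] at h2 ⊢
    rw [setIntegral_prod _ h2]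
  have hGc : ContinuousOn G (Icc 0 T) := by
    refine continuousOn_const.add ?_
    have h1 := intervalIntegral.continuousOn_primitive_interval (μ := volume) (f := g)
      (a := 0) (b := T) (by
        rw [uIcc_of_le hT.le, integrableOn_Icc_iff_integrableOn_Ioc]
        exact hgi)
    rwa [uIcc_of_le hT.le] at h1
  have hGd : ∀ t ∈ Ioo (0 : ℝ) T, HasDerivAt G (g t) t := by
    intro t ht
    have h1 : IntervalIntegrable g volume 0 t :=
      hgii.mono_set (by
        rw [uIcc_of_le ht.1.le, uIcc_of_le hT.le]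
        exact Icc_subset_Icc_right ht.2.le)
    exact (intervalIntegral.integral_hasDerivAt_right h1
      (hgc.stronglyMeasurableAtFilter isOpen_Ioi t ht.1)
      (hgc.continuousAt (Ioi_mem_nhds ht.1))).const_add l
  have hFd : ∀ t ∈ Ioo (0 : ℝ) T, HasDerivAt (fun s => χ s * G s)
      (deriv χ t * G t + χ t * g t) t := fun t ht =>
    ((hχ.differentiable (by norm_num)).differentiableAt.hasDerivAt).mul (hGd t ht)
  have hFi : IntervalIntegrable (fun t => deriv χ t * G t + χ t * g t) volume 0 T := by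
    refine IntervalIntegrable.add ?_ ?_
    · apply ContinuousOn.intervalIntegrable
      rw [uIcc_of_le hT.le]
      exact hχd.continuousOn.mul hGc
    · exact hgii.continuousOn_mul hχc.continuousOn
  have hftc := intervalIntegral.integral_eq_sub_of_hasDerivAt_of_le hT.le
    (hχc.continuousOn.mul hGc) hFd hFi
  have hG0 : G 0 = l := by simp [hG]
  have e : ∫ z in Ioo 0 T ×ˢ cube, (deriv χ z.1 * (∑ i, u z.1 z.2 i * φ z.2 i)
      + χ z.1 * gg ν u φ z) = ∫ t in (0 : ℝ)..T, (deriv χ t * G t + χ t * g t) := by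
    rw [intervalIntegral.integral_of_le hT.le, integral_Ioc_eq_integral_Ioo]
    have i12' : IntegrableOn (fun z : ℝ × V => deriv χ z.1 * (∑ i, u z.1 z.2 i * φ z.2 i)
      + χ z.1 * gg ν u φ z) (Ioo 0 T ×ˢ cube) := i12
    rw [Measure.volume_eq_prod] at i12' ⊢
    rw [setIntegral_prod _ i12']
    refine setIntegral_congr_fun measurableSet_Ioo fun t ht => ?_
    show ∫ x in cube, (deriv χ t * (∑ i, u t x i * φ x i) + χ t * gg ν u φ (t, x)) = _
    have j1 : IntegrableOn (fun x => ∑ i, u t x i * φ x i) cube :=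
      int_slice (f := fun z : ℝ × V => ∑ i, u z.1 z.2 i * φ z.2 i) (uφ_cont hu hφ) ht.1
    have j2 : IntegrableOn (fun x => gg ν u φ (t, x)) cube :=
      int_slice (gg_cont hu hφ hp) ht.1
    rw [integral_add (j1.const_mul _) (j2.const_mul _), integral_const_mul, integral_const_mul,
      hGt t ht.1 ht.2.le]
  rw [e, hftc]
  show χ 0 * l + (χ T * G T - χ 0 * G 0) = 0
  rw [hχT, hG0]
  ring

end

/-- **Piece VWQ.** -/
theorem vw : StmVW := by
  intro ν hν c u p hu hL hpair T hT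
  have hsub : Ioo (0 : ℝ) T ×ˢ cube ⊆ Ioi 0 ×ˢ univ := fun z hz => ⟨hz.1.1, mem_univ _⟩
  refine ⟨fun i => ((comp_smooth hu i).continuousOn.mono hsub).aestronglyMeasurable (box_meas T),
    fun i => (hL T i).mono_set (prod_mono Ioo_subset_Ioc_self le_rfl), ?_, ?_⟩
  · intro χ φ hχ _ hφ hφp
    have hSP : SP φ := ⟨hφ, hφp⟩
    have i1 : IntegrableOn (fun z : ℝ × V => χ z.1 * ∑ i, u z.1 z.2 i * pd i φ z.2)
        (Ioo 0 T ×ˢ cube) := by
      have h1 : IntegrableOn (fun z : ℝ × V => ∑ i, u z.1 z.2 i * pd i φ z.2)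
          (Ioo 0 T ×ˢ cube) :=
        integrable_finsetSum _ fun i _ => mul_int (ψ := fun z : ℝ × V => pd i φ z.2)
          (lin_int hu hL T i) ((hSP.pd i).cont.comp continuous_snd)
      refine (mul_int (ψ := fun z : ℝ × V => χ z.1) h1
        (hχ.continuous.comp continuous_fst)).congr ?_
      exact Eventually.of_forall fun z => mul_comm _ _
    rw [Measure.volume_eq_prod] at i1 ⊢
    rw [setIntegral_prod _ i1]
    have h0 : ∀ t ∈ Ioo (0 : ℝ) T, ∫ x in cube, χ t * ∑ i, u t x i * pd i φ x = 0 := by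
      intro t ht
      rw [integral_const_mul, integral_finsetSum _ fun i _ =>
        ((sp_u hu ht.1 i).mul (hSP.pd i)).int]
      have h2 := int_press (fun i => sp_u hu ht.1 i) (hu.divfree t ht.1) hSP
      rw [h2, mul_zero]
    rw [setIntegral_congr_fun measurableSet_Ioo h0]
    simp
  · intro χ φ hχ hχT hφ hφp hd
    obtain ⟨s, hs, hχs⟩ := hχT
    have hl : Tendsto (fun t => ∑ i, ∫ x in cube, u t x i * φ x i) (𝓝[>] 0)
        (𝓝 (∑ i, pr c i (fun x => φ x i))) :=
      tendsto_finsetSum _ fun i _ => hpair i (fun x => φ x i) (contDiff_pi.1 hφ i)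
        (sp_φ hφ hφp i).per
    exact weak_time hu hL hφ hφp hd hl hχ (hχs T hs.le) hT

end Pool.Agent.Run7.h980.WQ
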