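import Pool.Agent.Run7.h980.WS.Cos
import Pool.Agent.Run7.h782.WQ.Defs

/-!
Concentrated trigonometric polynomials of one variable.
-/

set_option autoImplicit false

open MeasureTheory Set Filter Topology Polynomial
open scoped ContDiff ComplexConjugate

namespace Pool.Agent.Run7.h980.WQ

open Pool.Agent.Run7.h980.WS

theorem TP.add {T T' : Finset ℤ} {x x' : ℤ → ℝ} {X X' : ℝ → ℝ} (h : TP T x X)
    (h' : TP T' x' X') : TP (T ∪ T') (fun k => x k + x' k) fun t => X t + X' t := by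
  classical
  refine ⟨fun k hk => ?_, fun k => by rw [h.even k, h'.even k], fun t => ?_⟩
  · rw [Finset.mem_union, not_or] at hk
    rw [h.supp k hk.1, h'.supp k hk.2, add_zero]
  · have e1 : ∑ k ∈ T ∪ T', (x k : ℂ) * e1 k t = X t := by
      rw [h.eq t]
      symm
      exact Finset.sum_subset Finset.subset_union_left fun k _ hk => by rw [h.supp k hk]; simp
    have e2 : ∑ k ∈ T ∪ T', (x' k : ℂ) * WS.e1 k t = X' t := by
      rw [h'.eq t]
      symm
      exact Finset.sum_subset Finset.subset_union_right fun k _ hk => by rw [h'.supp k hk]; simp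
    push_cast
    rw [← e1, ← e2, ← Finset.sum_add_distrib]
    exact Finset.sum_congr rfl fun k _ => by ring

theorem TP.poly (p : ℝ[X]) : ∃ (T : Finset ℤ) (x : ℤ → ℝ),
    TP T x fun t => p.eval (Real.cos (Real.pi * t) ^ 2) := by
  induction p using Polynomial.induction_on' with
  | add p q hp hq =>
    obtain ⟨T, x, h⟩ := hp
    obtain ⟨T', x', h'⟩ := hq
    refine ⟨_, _, by simpa only [eval_add] using TP.add h h'⟩
  | monomial n a =>
    obtain ⟨T, x, h⟩ := TP.cos_pow n
    refine ⟨_, _, by simpa only [eval_monomial] using h.smul a⟩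

/-- The tent function. -/
noncomputable def tent (κ u : ℝ) : ℝ := max 0 (1 - (1 - u) / κ ^ 2)

theorem tent_cont (κ : ℝ) : Continuous (tent κ) := by
  unfold tent
  fun_prop

/-- A concentrated trigonometric polynomial. -/
theorem exists_bump {κ : ℝ} (hκ : 0 < κ) (hκ1 : κ ≤ 1) (E : Finset ℝ) (hE : ∀ p ∈ E, 0 < p) :
    ∃ (T : Finset ℤ) (x : ℤ → ℝ) (X : ℝ → ℝ), TP T x X ∧ ∑ k ∈ T, x k ^ 2 = 1 ∧
      ∀ p ∈ E, ∫ t in Icc (0 : ℝ) 1, |X t| ^ p ≤ 2 * 12 ^ p * κ ^ (1 - p / 2) := by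
  classical
  have hpi := Real.pi_pos
  -- the choice of the error
  obtain ⟨ε, hε0, hε1, hε2⟩ : ∃ ε : ℝ, 0 < ε ∧ ε ≤ 1 / 4 ∧ ∀ p ∈ E, ε ^ p ≤ κ := by
    have h1 : ∀ p ∈ E, ∀ᶠ ε : ℝ in 𝓝[>] 0, ε ^ p ≤ κ := by
      intro p hp
      have h2 : Tendsto (fun ε : ℝ => ε ^ p) (𝓝[>] 0) (𝓝 (0 ^ p)) :=
        ((Real.continuous_rpow_const (hE p hp).le).tendsto 0).mono_left nhdsWithin_le_nhds
      rw [Real.zero_rpow (hE p hp).ne'] at h2
      exact h2.eventually_le_const hκ
    have h3 : ∀ᶠ ε : ℝ in 𝓝[>] 0, ∀ p ∈ E, ε ^ p ≤ κ := (Filter.eventually_all_finset E).2 h1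
    have h4 : ∀ᶠ ε : ℝ in 𝓝[>] 0, ε ≤ 1 / 4 :=
      (tendsto_id.mono_left nhdsWithin_le_nhds).eventually_le_const (by norm_num)
    obtain ⟨ε, ⟨h5, h6⟩, h7⟩ := ((h3.and h4).and self_mem_nhdsWithin).exists
    exact ⟨ε, h7, h6, h5⟩
  obtain ⟨P, hP⟩ := exists_polynomial_near_of_continuousOn 0 1 (tent κ)
    (tent_cont κ).continuousOn ε hε0
  obtain ⟨T, x, h⟩ := TP.poly P
  set Y : ℝ → ℝ := fun t => P.eval (Real.cos (Real.pi * t) ^ 2) with hY
  have hcs : ∀ t, Real.cos (Real.pi * t) ^ 2 ∈ Icc (0 : ℝ) 1 := fun t =>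
    ⟨sq_nonneg _, Real.cos_sq_le_one _⟩
  have hYt : ∀ t, |Y t - tent κ (Real.cos (Real.pi * t) ^ 2)| < ε := fun t => hP _ (hcs t)
  have hsc : ∀ t, 1 - Real.cos (Real.pi * t) ^ 2 = Real.sin (Real.pi * t) ^ 2 := fun t => by
    have := Real.sin_sq_add_cos_sq (Real.pi * t)
    linarith
  have hκ2 : 0 < κ ^ 2 := by positivity
  -- upper bounds
  have hup : ∀ t, |Y t| ≤ 5 / 4 := by
    intro t
    have h1 := abs_lt.1 (hYt t)
    have h2 : tent κ (Real.cos (Real.pi * t) ^ 2) ≤ 1 := by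
      unfold tent
      refine max_le zero_le_one ?_
      have : 0 ≤ (1 - Real.cos (Real.pi * t) ^ 2) / κ ^ 2 := by
        rw [hsc]; positivity
      linarith
    have h3 : 0 ≤ tent κ (Real.cos (Real.pi * t) ^ 2) := le_max_left _ _
    rw [abs_le]
    constructor <;> linarith [h1.1, h1.2]
  have hout : ∀ t, κ / 2 ≤ t → t ≤ 1 - κ / 2 → |Y t| ≤ ε := by
    intro t ht0 ht1
    have h1 := hYt t
    have h2 : tent κ (Real.cos (Real.pi * t) ^ 2) = 0 := by
      unfold tent
      refine max_eq_left ?_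
      rw [hsc, sub_nonpos, le_div_iff₀ hκ2, one_mul]
      have h3 : κ ≤ Real.sin (Real.pi * t) := by
        rcases le_total t (1 / 2) with h | h
        · have ht00 : 0 ≤ t := by linarith
          have h4 := Real.mul_le_sin (x := Real.pi * t) (by positivity) (by nlinarith)
          have e : 2 / Real.pi * (Real.pi * t) = 2 * t := by field_simp
          linarith
        · have h4 := Real.mul_le_sin (x := Real.pi * (1 - t)) (by
            have : 0 ≤ 1 - t := by linarith
            positivity) (by nlinarith)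
          have e : 2 / Real.pi * (Real.pi * (1 - t)) = 2 * (1 - t) := by field_simp
          have e2 : Real.sin (Real.pi * (1 - t)) = Real.sin (Real.pi * t) := by
            rw [mul_sub, mul_one, Real.sin_pi_sub]
          rw [e2] at h4
          linarith
      exact pow_le_pow_left₀ hκ.le h3 2
    rw [h2, sub_zero] at h1
    exact h1.le
  -- lower bound near `0`
  have hlow : ∀ t ∈ Icc (0 : ℝ) (κ / 5), 1 / 16 ≤ Y t ^ 2 := by
    intro t ht
    have h1 := abs_lt.1 (hYt t)
    have h2 : 1 / 2 ≤ tent κ (Real.cos (Real.pi * t) ^ 2) := by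
      unfold tent
      refine le_max_of_le_right ?_
      rw [hsc]
      have h3 : Real.sin (Real.pi * t) ^ 2 ≤ (Real.pi * t) ^ 2 := Real.sin_sq_le_sq
      have h4 : Real.pi * t ≤ 3.15 * (κ / 5) :=
        mul_le_mul Real.pi_lt_d2.le ht.2 ht.1 (by norm_num)
      have h5 : (Real.pi * t) ^ 2 ≤ (3.15 * (κ / 5)) ^ 2 :=
        pow_le_pow_left₀ (mul_nonneg hpi.le ht.1) h4 2
      have h6 : Real.sin (Real.pi * t) ^ 2 / κ ^ 2 ≤ 1 / 2 := by
        rw [div_le_iff₀ hκ2]
        nlinarith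
      linarith
    have h7 : 1 / 4 ≤ Y t := by linarith [h1.1]
    nlinarith
  have hYc : Continuous Y := h.cont
  set A : ℝ := ∫ t in Icc (0 : ℝ) 1, Y t ^ 2 with hA
  have hA1 : κ / 80 ≤ A := by
    have hI : ∀ b : ℝ, IntegrableOn (fun t : ℝ => Y t ^ 2) (Icc (0 : ℝ) b) := fun b =>
      (hYc.pow 2).continuousOn.integrableOn_compact isCompact_Icc
    have hIc : IntegrableOn (fun _ : ℝ => (1 / 16 : ℝ)) (Icc (0 : ℝ) (κ / 5)) :=
      continuous_const.continuousOn.integrableOn_compact isCompact_Icc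
    calc κ / 80 = ∫ _t in Icc (0 : ℝ) (κ / 5), (1 / 16 : ℝ) := by
          rw [setIntegral_const, Real.volume_real_Icc_of_le (by positivity), smul_eq_mul]
          ring
      _ ≤ ∫ t in Icc (0 : ℝ) (κ / 5), Y t ^ 2 :=
          setIntegral_mono_on hIc (hI _) measurableSet_Icc hlow
      _ ≤ A := setIntegral_mono_set (hI 1) (Eventually.of_forall fun t => sq_nonneg _)
          (Eventually.of_forall (Icc_subset_Icc le_rfl (by linarith)))
  have hA0 : 0 < A := lt_of_lt_of_le (by positivity) hA1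
  have hsA : 0 < Real.sqrt A := Real.sqrt_pos.2 hA0
  have hsκ : 0 < Real.sqrt κ := Real.sqrt_pos.2 hκ
  have hsA1 : 1 / Real.sqrt A ≤ 9 * (1 / Real.sqrt κ) := by
    have h1 : Real.sqrt κ ≤ 9 * Real.sqrt A := by
      rw [Real.sqrt_le_left (by positivity), mul_pow, Real.sq_sqrt hA0.le]
      linarith
    rw [mul_one_div, div_le_div_iff₀ hsA hsκ]
    linarith
  refine ⟨T, _, _, h.smul (1 / Real.sqrt A), ?_, fun p hp => ?_⟩
  · have h1 := h.sq_int
    have e : ∀ k ∈ T, (1 / Real.sqrt A * x k) ^ 2 = 1 / A * x k ^ 2 := by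
      intro k _
      rw [mul_pow, div_pow, Real.sq_sqrt hA0.le, one_pow]
    rw [Finset.sum_congr rfl e, ← Finset.mul_sum, ← h1, ← hA]
    field_simp
  · have hp0 := hE p hp
    have hcont : Continuous fun t => |1 / Real.sqrt A * Y t| ^ p :=
      Continuous.rpow_const (by fun_prop) fun t => Or.inr hp0.le
    have hIon : ∀ S : Set ℝ, S ⊆ Icc (0 : ℝ) 1 →
        IntegrableOn (fun t => |1 / Real.sqrt A * Y t| ^ p) S := fun S hS =>
      (hcont.continuousOn.integrableOn_compact isCompact_Icc).mono_set hS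
    -- pointwise
    have b1 : ∀ t, |1 / Real.sqrt A * Y t| ^ p ≤ (12 * (1 / Real.sqrt κ)) ^ p := by
      intro t
      refine Real.rpow_le_rpow (abs_nonneg _) ?_ hp0.le
      rw [abs_mul, abs_of_nonneg (by positivity : 0 ≤ 1 / Real.sqrt A)]
      calc 1 / Real.sqrt A * |Y t| ≤ (9 * (1 / Real.sqrt κ)) * (5 / 4) :=
            mul_le_mul hsA1 (hup t) (abs_nonneg _) (by positivity)
        _ = 45 / 4 * (1 / Real.sqrt κ) := by ring
        _ ≤ _ := mul_le_mul_of_nonneg_right (by norm_num) (by positivity)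
    have b2 : ∀ t ∈ Icc (κ / 2) (1 - κ / 2),
        |1 / Real.sqrt A * Y t| ^ p ≤ (12 * (1 / Real.sqrt κ)) ^ p * κ := by
      intro t ht
      have h1 : |1 / Real.sqrt A * Y t| ≤ 12 * (1 / Real.sqrt κ) * ε := by
        rw [abs_mul, abs_of_nonneg (by positivity : 0 ≤ 1 / Real.sqrt A)]
        refine mul_le_mul (hsA1.trans ?_) (hout t ht.1 ht.2) (abs_nonneg _) (by positivity)
        exact mul_le_mul_of_nonneg_right (by norm_num) (by positivity)
      refine (Real.rpow_le_rpow (abs_nonneg _) h1 hp0.le).trans ?_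
      rw [Real.mul_rpow (by positivity) hε0.le]
      exact mul_le_mul_of_nonneg_left (hε2 p hp) (by positivity)
    have hC0 : 0 ≤ (12 * (1 / Real.sqrt κ)) ^ p := by positivity
    have e0 : (12 * (1 / Real.sqrt κ)) ^ p * κ = 12 ^ p * κ ^ (1 - p / 2) := by
      rw [Real.mul_rpow (by norm_num) (by positivity), mul_assoc]
      congr 1
      rw [one_div, Real.inv_rpow hsκ.le, Real.sqrt_eq_rpow, ← Real.rpow_mul hκ.le,
        ← Real.rpow_neg hκ.le]
      nth_rewrite 2 [← Real.rpow_one κ]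
      rw [← Real.rpow_add hκ]
      congr 1
      ring
    -- the pointwise bound by a step function
    have key : ∀ t ∈ Icc (0 : ℝ) 1, |1 / Real.sqrt A * Y t| ^ p
        ≤ (12 * (1 / Real.sqrt κ)) ^ p * κ
          + (Icc (0 : ℝ) (κ / 2) ∪ Icc (1 - κ / 2) 1).indicator
            (fun _ => (12 * (1 / Real.sqrt κ)) ^ p) t := by
      intro t ht
      by_cases h1 : t ∈ Icc (0 : ℝ) (κ / 2) ∪ Icc (1 - κ / 2) 1
      · rw [indicator_of_mem h1]
        have h2 : 0 ≤ (12 * (1 / Real.sqrt κ)) ^ p * κ := by positivity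
        have h3 := b1 t
        linarith
      · rw [indicator_of_notMem h1, add_zero]
        refine b2 t ?_
        rw [mem_union, not_or, mem_Icc, mem_Icc, not_and, not_and] at h1
        have h3 := h1.1 ht.1
        have h4 : ¬ (1 - κ / 2 ≤ t) := fun h5 => h1.2 h5 ht.2
        exact ⟨(not_le.1 h3).le, (not_le.1 h4).le⟩
    have hms : MeasurableSet (Icc (0 : ℝ) (κ / 2) ∪ Icc (1 - κ / 2) 1) :=
      measurableSet_Icc.union measurableSet_Icc
    have hvol : volume.real ((Icc (0 : ℝ) (κ / 2) ∪ Icc (1 - κ / 2) 1)) ≤ κ := by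
      refine (measureReal_union_le _ _).trans ?_
      rw [Real.volume_real_Icc_of_le (by positivity), Real.volume_real_Icc_of_le (by linarith)]
      linarith
    have hint1 : IntegrableOn (fun _ : ℝ => (12 * (1 / Real.sqrt κ)) ^ p * κ) (Icc (0 : ℝ) 1) :=
      continuous_const.continuousOn.integrableOn_compact isCompact_Icc
    have hint2 : IntegrableOn ((Icc (0 : ℝ) (κ / 2) ∪ Icc (1 - κ / 2) 1).indicator
        (fun _ : ℝ => (12 * (1 / Real.sqrt κ)) ^ p)) (Icc (0 : ℝ) 1) := by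
      refine IntegrableOn.indicator ?_ hms
      exact continuous_const.continuousOn.integrableOn_compact isCompact_Icc
    calc ∫ t in Icc (0 : ℝ) 1, |1 / Real.sqrt A * Y t| ^ p
        ≤ ∫ t in Icc (0 : ℝ) 1, ((12 * (1 / Real.sqrt κ)) ^ p * κ
          + (Icc (0 : ℝ) (κ / 2) ∪ Icc (1 - κ / 2) 1).indicator
            (fun _ => (12 * (1 / Real.sqrt κ)) ^ p) t) :=
          setIntegral_mono_on (hIon _ Subset.rfl) (hint1.add hint2) measurableSet_Icc key
      _ = (12 * (1 / Real.sqrt κ)) ^ p * κ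
          + ∫ t in Icc (0 : ℝ) 1, (Icc (0 : ℝ) (κ / 2) ∪ Icc (1 - κ / 2) 1).indicator
            (fun _ => (12 * (1 / Real.sqrt κ)) ^ p) t := by
          rw [integral_add hint1 hint2, setIntegral_const,
            Real.volume_real_Icc_of_le zero_le_one]
          simp
      _ ≤ (12 * (1 / Real.sqrt κ)) ^ p * κ + (12 * (1 / Real.sqrt κ)) ^ p * κ := by
          refine add_le_add le_rfl ?_
          rw [setIntegral_indicator hms, setIntegral_const, smul_eq_mul, mul_comm]
          refine mul_le_mul_of_nonneg_left ?_ hC0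
          refine (measureReal_mono inter_subset_right ?_).trans hvol
          refine ne_of_lt ((measure_union_le _ _).trans_lt ?_)
          rw [Real.volume_Icc, Real.volume_Icc]
          exact ENNReal.add_lt_top.2 ⟨ENNReal.ofReal_lt_top, ENNReal.ofReal_lt_top⟩
      _ = 2 * 12 ^ p * κ ^ (1 - p / 2) := by rw [e0]; ring

end Pool.Agent.Run7.h980.WQ
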