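import Pool.Agent.Run7.h980.WQ.Bump
import Pool.Agent.Run7.h980.WS.Conc

/-!
Concentration of profiles with all moments (piece ConcQ of project WQ).
-/

set_option autoImplicit false

open MeasureTheory Set Filter Topology
open scoped ContDiff ComplexConjugate NNReal

namespace Pool.Agent.Run7.h980.WQ

open H459R3.NS Pool.Agent.Run7.h782 Pool.Agent.Run7.h782.GD Pool.Agent.Run7.h782.GS
open Pool.Agent.Run7.h969.GG Pool.Agent.Run7.h980.WS Pool.Agent.Run7.h782.WQ

/-- One may take the set of frequencies symmetric. -/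
theorem TP.symm {T : Finset ℤ} {x : ℤ → ℝ} {X : ℝ → ℝ} (h : TP T x X) :
    TP (T ∪ T.image Neg.neg) x X ∧ ∑ k ∈ T ∪ T.image Neg.neg, x k ^ 2 = ∑ k ∈ T, x k ^ 2 := by
  classical
  refine ⟨⟨fun k hk => h.supp k fun h' => hk (Finset.mem_union_left _ h'), h.even, fun t => ?_⟩,
    ?_⟩
  · rw [h.eq t]
    exact Finset.sum_subset Finset.subset_union_left fun k _ hk => by rw [h.supp k hk]; simp
  · symm
    exact Finset.sum_subset Finset.subset_union_left fun k _ hk => by rw [h.supp k hk]; simp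

/-- The profile multiplied by `X (m · x)`. -/
noncomputable def mx (T : Finset ℤ) (x : ℤ → ℝ) (m : K3) (s : Cf) : Cf :=
  ∑ h ∈ T, (x h : ℂ) • sh (h • m) s

theorem mx_at (T : Finset ℤ) (x : ℤ → ℝ) (m : K3) (s : Cf) (k : K3) :
    mx T x m s k = ∑ h ∈ T, (x h : ℂ) • s (k - h • m) := by
  rw [mx, Finset.sum_apply]
  rfl

theorem mx_apply (T : Finset ℤ) (x : ℤ → ℝ) (m : K3) (s : Cf) (k : K3) (i : Fin 3) :
    mx T x m s k i = ∑ h ∈ T, (x h : ℂ) * s (k - h • m) i := by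
  rw [mx_at, Finset.sum_apply]
  rfl

theorem mx_supp {s : Cf} {P : Finset K3} (hP : ∀ p ∉ P, s p = 0) (T : Finset ℤ) (x : ℤ → ℝ)
    (m : K3) : ∀ p ∉ (T ×ˢ P).image (fun z => z.2 + z.1 • m), mx T x m s p = 0 := by
  intro p hp
  rw [mx_at]
  refine Finset.sum_eq_zero fun h hh => ?_
  rw [hP, smul_zero]
  intro h'
  exact hp (Finset.mem_image.2 ⟨(h, p - h • m), Finset.mem_product.2 ⟨hh, h'⟩, by
    show p - h • m + h • m = p
    abel⟩)

theorem sum_symm {T : Finset ℤ} (hT : ∀ h ∈ T, -h ∈ T) {M : Type*} [AddCommMonoid M] (F : ℤ → M) :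
    ∑ h ∈ T, F (-h) = ∑ h ∈ T, F h := by
  refine Finset.sum_nbij' (fun h => -h) (fun h => -h) hT hT (fun h _ => neg_neg h)
    (fun h _ => neg_neg h) fun h _ => rfl

theorem mx_herm {s : Cf} (hs : Herm s) {T : Finset ℤ} {x : ℤ → ℝ} (hT : ∀ h ∈ T, -h ∈ T)
    (hx : ∀ h, x (-h) = x h) (m : K3) : Herm (mx T x m s) := by
  intro k i
  rw [mx_apply, mx_apply, map_sum, ← sum_symm hT]
  refine Finset.sum_congr rfl fun h _ => ?_
  rw [hx, map_mul, Complex.conj_ofReal, ← hs (k - h • m) i]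
  congr 2
  rw [neg_smul]
  abel_nf

theorem kd_zsmul (h : ℤ) (n : K3) (v : C3) : kd (h • n) v = h * kd n v := by
  unfold kd
  rw [Finset.mul_sum]
  refine Finset.sum_congr rfl fun j _ => ?_
  rw [Pi.smul_apply, smul_eq_mul]
  push_cast
  ring

theorem mx_kd {n : K3} {s : Cf} (hn : ∀ p, kd n (s p) = 0) (T : Finset ℤ) (x : ℤ → ℝ)
    (m p : K3) : kd n (mx T x m s p) = 0 := by
  rw [mx_at]
  have e : kd n (∑ h ∈ T, (x h : ℂ) • s (p - h • m))
      = ∑ h ∈ T, (x h : ℂ) * kd n (s (p - h • m)) := by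
    unfold kd
    simp only [Finset.sum_apply, Pi.smul_apply, smul_eq_mul, Finset.mul_sum]
    rw [Finset.sum_comm]
    exact Finset.sum_congr rfl fun h _ => Finset.sum_congr rfl fun j _ => by ring
  rw [e]
  exact Finset.sum_eq_zero fun h _ => by rw [hn, mul_zero]

theorem len_zsmul (h : ℤ) (n : K3) : len (h • n) = |(h : ℝ)| * len n := by
  have e : GD.sq (h • n) = (h : ℝ) ^ 2 * GD.sq n := by
    unfold GD.sq
    rw [Finset.mul_sum]
    refine Finset.sum_congr rfl fun i _ => ?_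
    rw [Pi.smul_apply, smul_eq_mul]
    push_cast
    ring
  rw [len, len, e, Real.sqrt_mul (by positivity), Real.sqrt_sq_eq_abs]

theorem mx_nl {s : Cf} (hs : L1 s) {T : Finset ℤ} {x : ℤ → ℝ} (hT : ∀ h ∈ T, -h ∈ T)
    (hx : ∀ h, x (-h) = x h) (hx1 : ∑ h ∈ T, x h ^ 2 = 1) (m : K3) :
    nl (mx T x m s) (mx T x m s) - nl s s
      = ∑ h ∈ T, ∑ l ∈ T.filter (fun l => h + l ≠ 0),
        ((x h * x l : ℝ) : ℂ) • nl (sh (h • m) s) (sh (l • m) s) := by
  classical
  have hl : ∀ h ∈ T, L1 ((x h : ℂ) • sh (h • m) s) := fun h _ => (L1.sh hs _).smul _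
  have hL : L1 (mx T x m s) := L1.sum hl
  have e1 : nl (mx T x m s) (mx T x m s)
      = ∑ h ∈ T, ∑ l ∈ T, ((x h * x l : ℝ) : ℂ) • nl (sh (h • m) s) (sh (l • m) s) := by
    conv_lhs => rw [mx]
    rw [nl_sum_left hl (L1.sum hl)]
    refine Finset.sum_congr rfl fun h hh => ?_
    rw [nl_sum_right (hl h hh) hl]
    refine Finset.sum_congr rfl fun l _ => ?_
    rw [nl_smul_left, nl_smul_right, smul_smul]
    push_cast
    rfl
  have e2 : ∀ h ∈ T, ∑ l ∈ T, ((x h * x l : ℝ) : ℂ) • nl (sh (h • m) s) (sh (l • m) s)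
      = ∑ l ∈ T.filter (fun l => h + l ≠ 0),
          ((x h * x l : ℝ) : ℂ) • nl (sh (h • m) s) (sh (l • m) s)
        + ((x h ^ 2 : ℝ) : ℂ) • nl s s := by
    intro h hh
    rw [← Finset.sum_filter_add_sum_filter_not T (fun l => h + l ≠ 0)]
    congr 1
    have e3 : T.filter (fun l => ¬ (h + l ≠ 0)) = {-h} := by
      ext l
      rw [Finset.mem_filter, Finset.mem_singleton, not_not]
      constructor
      · rintro ⟨_, h2⟩
        linarith
      · rintro rfl
        exact ⟨hT h hh, by ring⟩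
    rw [e3, Finset.sum_singleton, hx, neg_smul, nl_sh_neg, pow_two]
  rw [e1, Finset.sum_congr rfl e2, Finset.sum_add_distrib, ← Finset.sum_smul,
    ← Complex.ofReal_sum, hx1, Complex.ofReal_one, one_smul, add_sub_cancel_right]

/-- The interaction of the modulated profile. -/
theorem mx_nl_le {n : K3} {s : Cf} {P : Finset K3} {Λ : ℝ} {N : ℕ} (hn0 : n ≠ 0)
    (hP : ∀ p ∉ P, s p = 0) (hn : ∀ p, kd n (s p) = 0) (hΛ0 : 0 ≤ Λ)
    (hΛ : ∀ p ∈ P, len p ≤ Λ) (hN : 4 * Λ ≤ N) (hN0 : 0 < N)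
    {T : Finset ℤ} {x : ℤ → ℝ} (hT : ∀ h ∈ T, -h ∈ T)
    (hx : ∀ h, x (-h) = x h) (hx1 : ∑ h ∈ T, x h ^ 2 = 1) (B : Finset K3) :
    ∑ k ∈ B, ‖nl (mx T x (N • n) s) (mx T x (N • n) s) k - nl s s k‖ / len k
      ≤ (∑ h ∈ T, ∑ l ∈ T, |x h * x l|) * (96 * Real.pi * Λ * (N0 s * N0 s)) / N := by
  classical
  have hpi := Real.pi_pos
  have hs : L1 s := L1.of_supp hP
  have hNr : (0 : ℝ) < N := by exact_mod_cast hN0
  set m : K3 := N • n with hm
  have hlm : (N : ℝ) ≤ len m := by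
    rw [hm, len_nsmul]
    have := one_le_len hn0
    nlinarith
  have hN00 := N0_nonneg s
  have hkm : ∀ p, kd m (s p) = 0 := fun p => by rw [hm, kd_nsmul, hn, mul_zero]
  set K : ℝ := 96 * Real.pi * Λ / N * (N0 s * N0 s) with hK
  have hK0 : 0 ≤ K := by positivity
  have hterm : ∀ h l : ℤ, h + l ≠ 0 →
      ∑ k ∈ B, ‖nl (sh (h • m) s) (sh (l • m) s) k‖ / len k ≤ K := by
    intro h l hhl
    refine nl_gen (m₁ := h • m) (m₂ := l • m) hP hΛ (fun p => ?_) ?_ hN hNr hΛ0 B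
    · rw [← add_smul, kd_zsmul, hkm, mul_zero]
    · rw [← add_smul, len_zsmul]
      have h1 : (1 : ℝ) ≤ |((h + l : ℤ) : ℝ)| := by
        rw [← Int.cast_abs]
        exact_mod_cast Int.one_le_abs hhl
      have h2 := len_nonneg m
      nlinarith
  have e : ∀ k, nl (mx T x m s) (mx T x m s) k - nl s s k
      = ∑ h ∈ T, ∑ l ∈ T.filter (fun l => h + l ≠ 0),
        ((x h * x l : ℝ) : ℂ) • nl (sh (h • m) s) (sh (l • m) s) k := by
    intro k
    have h1 := congrFun (mx_nl hs hT hx hx1 m) k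
    rw [Pi.sub_apply] at h1
    rw [h1]
    simp only [Finset.sum_apply, Pi.smul_apply]
  have key : ∀ k ∈ B, ‖nl (mx T x m s) (mx T x m s) k - nl s s k‖ / len k
      ≤ ∑ h ∈ T, ∑ l ∈ T.filter (fun l => h + l ≠ 0),
        |x h * x l| * (‖nl (sh (h • m) s) (sh (l • m) s) k‖ / len k) := by
    intro k _
    rw [e]
    have h1 : ‖∑ h ∈ T, ∑ l ∈ T.filter (fun l => h + l ≠ 0),
        ((x h * x l : ℝ) : ℂ) • nl (sh (h • m) s) (sh (l • m) s) k‖
        ≤ ∑ h ∈ T, ∑ l ∈ T.filter (fun l => h + l ≠ 0),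
          |x h * x l| * ‖nl (sh (h • m) s) (sh (l • m) s) k‖ := by
      refine (norm_sum_le _ _).trans (Finset.sum_le_sum fun h _ => ?_)
      refine (norm_sum_le _ _).trans (Finset.sum_le_sum fun l _ => ?_)
      rw [norm_smul, Complex.norm_real, Real.norm_eq_abs]
    refine (div_le_div_of_nonneg_right h1 (len_nonneg k)).trans (le_of_eq ?_)
    rw [Finset.sum_div]
    refine Finset.sum_congr rfl fun h _ => ?_
    rw [Finset.sum_div]
    exact Finset.sum_congr rfl fun l _ => by ring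
  calc ∑ k ∈ B, ‖nl (mx T x m s) (mx T x m s) k - nl s s k‖ / len k
      ≤ ∑ k ∈ B, ∑ h ∈ T, ∑ l ∈ T.filter (fun l => h + l ≠ 0),
        |x h * x l| * (‖nl (sh (h • m) s) (sh (l • m) s) k‖ / len k) := Finset.sum_le_sum key
    _ = ∑ h ∈ T, ∑ l ∈ T.filter (fun l => h + l ≠ 0), |x h * x l|
        * ∑ k ∈ B, ‖nl (sh (h • m) s) (sh (l • m) s) k‖ / len k := by
        rw [Finset.sum_comm]
        refine Finset.sum_congr rfl fun h _ => ?_
        rw [Finset.sum_comm]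
        refine Finset.sum_congr rfl fun l _ => ?_
        rw [Finset.mul_sum]
    _ ≤ ∑ h ∈ T, ∑ l ∈ T.filter (fun l => h + l ≠ 0), |x h * x l| * K := by
        refine Finset.sum_le_sum fun h _ => Finset.sum_le_sum fun l hl => ?_
        exact mul_le_mul_of_nonneg_left (hterm h l (Finset.mem_filter.1 hl).2) (abs_nonneg _)
    _ ≤ ∑ h ∈ T, ∑ l ∈ T, |x h * x l| * K :=
        Finset.sum_le_sum fun h _ => Finset.sum_le_sum_of_subset_of_nonneg
          (Finset.filter_subset _ _) fun l _ _ => by positivity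
    _ = _ := by
        simp_rw [← Finset.sum_mul]
        rw [hK]
        ring

theorem ee_zsmul (h : ℤ) (m : K3) (x : V) : ee (h • m) x = e1 h (ph m x) := by
  unfold ee e1
  congr 3
  unfold ph
  rw [Finset.mul_sum]
  refine Finset.sum_congr rfl fun j _ => ?_
  rw [Pi.smul_apply, smul_eq_mul]
  push_cast
  ring

theorem S_mx {s : Cf} {P : Finset K3} (hP : ∀ p ∉ P, s p = 0) {T : Finset ℤ} {x : ℤ → ℝ}
    {X : ℝ → ℝ} (h : TP T x X) (m : K3) (i : Fin 3) (y : V) :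
    S (fun k => mx T x m s k i) y = (X (ph m y) : ℂ) * S (fun k => s k i) y := by
  have h0 := summ hP i
  have h1 : ∀ h : ℤ, Summable fun k : K3 => s (k - h • m) i := fun h =>
    (Equiv.subRight (h • m)).summable_iff.2 h0
  have e : S (fun k => mx T x m s k i) y = ∑ h ∈ T, (x h : ℂ) * S (fun k => s (k - h • m) i) y := by
    unfold S
    simp_rw [← tsum_mul_left]
    rw [← Summable.tsum_finsetSum fun h _ => (summable_term (h1 h) y).mul_left _]
    refine tsum_congr fun k => ?_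
    show mx T x m s k i * ee k y = _
    rw [mx_apply, Finset.sum_mul]
    exact Finset.sum_congr rfl fun h _ => by ring
  rw [e, h.eq, Finset.sum_mul]
  refine Finset.sum_congr rfl fun h _ => ?_
  rw [S_sh, ee_zsmul]
  ring

theorem fn_mx {s : Cf} {P : Finset K3} (hP : ∀ p ∉ P, s p = 0) {T : Finset ℤ} {x : ℤ → ℝ}
    {X : ℝ → ℝ} (h : TP T x X) (m : K3) (y : V) :
    fn (mx T x m s) y = |X (ph m y)| * fn s y := by
  unfold fn
  rw [Finset.mul_sum]
  refine Finset.sum_congr rfl fun i _ => ?_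
  rw [S_mx hP h, norm_mul, Complex.norm_real, Real.norm_eq_abs]

theorem fn_cont {s : Cf} {P : Finset K3} (hP : ∀ p ∉ P, s p = 0) : Continuous (fn s) := by
  unfold fn
  exact continuous_finsetSum _ fun i _ => (S_continuous (summ hP i)).norm

theorem fn_nonneg (s : Cf) (x : V) : 0 ≤ fn s x :=
  Finset.sum_nonneg fun _ _ => norm_nonneg _

/-- Convergence of the moments. -/
theorem fp_mx {n : K3} {s : Cf} {P : Finset K3} (hn : n ≠ 0) (hP : ∀ p ∉ P, s p = 0)
    {T : Finset ℤ} {x : ℤ → ℝ} {X : ℝ → ℝ} (h : TP T x X) {p : ℝ} (hp : 0 < p) :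
    Tendsto (fun N : ℕ => fp p (mx T x (N • n) s)) atTop
      (𝓝 ((∫ t in Icc (0 : ℝ) 1, |X t| ^ p) * fp p s)) := by
  have hf : Continuous fun y : V => ((fn s y ^ p : ℝ) : ℂ) :=
    Complex.continuous_ofReal.comp ((fn_cont hP).rpow_const fun _ => Or.inr hp.le)
  have hG : Continuous fun y : Unit → ℝ => ((|X (y ())| ^ p : ℝ) : ℂ) := by
    refine Complex.continuous_ofReal.comp (Continuous.rpow_const ?_ fun _ => Or.inr hp.le)
    exact (h.cont.comp (continuous_apply ())).abs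
  have hD := decouple (I := Unit) (a := fun _ => 1) (n := fun _ => n)
    (fun _ _ _ => rfl) (fun _ => le_rfl) (fun _ => hn) hf hG
    (fun y m => by
      show ((|X (y () + (m () : ℝ))| ^ p : ℝ) : ℂ) = _
      rw [h.per])
  have hre := (Complex.continuous_re.tendsto _).comp hD
  have e1 : ∀ N : ℕ, (∫ y in cube, ((fn s y ^ p : ℝ) : ℂ)
      * ((|X (pz (fun _ : Unit => 1) (fun _ => n) N y ())| ^ p : ℝ) : ℂ)).re
      = fp p (mx T x (N • n) s) := by
    intro N
    have e2 : ∀ y, ((fn s y ^ p : ℝ) : ℂ)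
        * ((|X (pz (fun _ : Unit => 1) (fun _ => n) N y ())| ^ p : ℝ) : ℂ)
        = ((fn (mx T x (N • n) s) y ^ p : ℝ) : ℂ) := by
      intro y
      have e3 : pz (fun _ : Unit => 1) (fun _ => n) N y () = ph (N • n) y := by
        unfold pz fq
        rw [pow_one]
      rw [e3, ← Complex.ofReal_mul, fn_mx hP h, Real.mul_rpow (abs_nonneg _) (fn_nonneg s y),
        mul_comm]
    simp_rw [e2]
    rw [integral_complex_ofReal, Complex.ofReal_re]
    rfl
  have e4 : ((∫ y in cube, ((fn s y ^ p : ℝ) : ℂ))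
      * ∫ y in Icc (0 : Unit → ℝ) 1, ((|X (y ())| ^ p : ℝ) : ℂ)).re
      = (∫ t in Icc (0 : ℝ) 1, |X t| ^ p) * fp p s := by
    rw [integral_complex_ofReal, integral_complex_ofReal, ← Complex.ofReal_mul,
      Complex.ofReal_re, mul_comm]
    congr 1
    have hmp := volume_preserving_funUnique Unit ℝ
    have h2 := hmp.setIntegral_preimage_emb (MeasurableEquiv.measurableEmbedding _)
      (fun t : ℝ => |X t| ^ p) (Icc (0 : ℝ) 1)
    rw [← h2]
    congr 1
    congr 1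
    ext y
    simp only [mem_Icc, mem_preimage, Pi.le_def]
    constructor
    · intro h3
      exact ⟨h3.1 (), h3.2 ()⟩
    · intro h3
      exact ⟨fun _ => h3.1, fun _ => h3.2⟩
  rw [e4] at hre
  refine hre.congr fun N => ?_
  exact e1 N

/-- **Piece ConcQ.** -/
theorem concQ : StmConcQ := by
  classical
  refine ⟨fun p => 2 * 12 ^ p, fun p => by positivity,
    fun κ hκ hκ1 E hE n s P hn0 hP hs hn θ hθ => ?_⟩
  obtain ⟨T₀, x, X, h₀, h1, h2⟩ := exists_bump hκ hκ1 E hE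
  obtain ⟨h, hsq⟩ := TP.symm h₀
  set T : Finset ℤ := T₀ ∪ T₀.image Neg.neg with hTd
  have hT : ∀ k ∈ T, -k ∈ T := by
    intro k hk
    rw [hTd, Finset.mem_union, Finset.mem_image] at hk ⊢
    rcases hk with hk | ⟨l, hl, rfl⟩
    · exact Or.inr ⟨k, hk, rfl⟩
    · exact Or.inl (by rwa [neg_neg])
  rw [h1] at hsq
  set Λ : ℝ := ∑ p ∈ P, len p with hΛ
  have hΛ0 : 0 ≤ Λ := Finset.sum_nonneg fun p _ => len_nonneg p
  have hΛ1 : ∀ p ∈ P, len p ≤ Λ := fun p hp =>
    Finset.single_le_sum (f := fun p => len p) (fun p _ => len_nonneg p) hp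
  have v1 : ∀ᶠ N : ℕ in atTop, ((∑ h ∈ T, ∑ l ∈ T, |x h * x l|)
      * (96 * Real.pi * Λ * (N0 s * N0 s))) / (N : ℝ) ≤ θ :=
    (tendsto_const_div_atTop_nhds_zero_nat _).eventually_le_const hθ
  have v2 : ∀ᶠ N : ℕ in atTop, ∀ p ∈ E, fp p (mx T x (N • n) s)
      ≤ 2 * 12 ^ p * κ ^ (1 - p / 2) * fp p s + θ := by
    refine (Filter.eventually_all_finset E).2 fun p hp => ?_
    refine (fp_mx hn0 hP h (hE p hp)).eventually_le_const ?_
    have h3 : 0 ≤ fp p s := integral_nonneg fun y => by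
      have := fn_nonneg s y
      positivity
    have h4 := mul_le_mul_of_nonneg_right (h2 p hp) h3
    linarith
  obtain ⟨N, a1, a2, a3, a4⟩ := (v1.and (v2.and
    ((tendsto_natCast_atTop_atTop.eventually_ge_atTop (4 * Λ)).and
      (eventually_gt_atTop 0)))).exists
  exact ⟨mx T x (N • n) s, _, mx_supp hP T x (N • n), mx_herm hs hT h.even _,
    mx_kd hn T x _, a2, fun B =>
      (mx_nl_le hn0 hP hn hΛ0 hΛ1 a3 a4 hT h.even hsq B).trans a1⟩

end Pool.Agent.Run7.h980.WQ
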