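import Pool.Agent.Run7.h980.WQ.VW
import Pool.Agent.Run7.h980.WQ.ProfQ
import Pool.Agent.Run7.h782.WQ.Defs3

/-!
The square function estimate of the heat semigroup for `1 < p ≤ 2` (piece SqF of project WQ).
-/

set_option autoImplicit false

open MeasureTheory Set Filter Topology
open scoped ContDiff ENNReal

namespace Pool.Agent.Run7.h980.WQ

open H459R3.NS Pool.Agent.Run7.h782.GS Run7.h475.WS
open Pool.Agent.Run7.h782.WQ Pool.Agent.Run7.h782.GD

section
variable {w : ℝ → V → ℝ}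

/-- The derivatives in space of a function of space and time. -/
theorem pd_joint (hw : ContDiffOn ℝ ∞ (fun z : ℝ × V => w z.1 z.2) (Ioi 0 ×ˢ univ)) {t : ℝ}
    (ht : 0 < t) (j : Fin 3) (x : V) :
    pd j (w t) x = fderiv ℝ (fun z : ℝ × V => w z.1 z.2) (t, x) ((0 : ℝ), (Pi.single j 1 : V)) := by
  have h1 : HasFDerivAt (fun y : V => ((t, y) : ℝ × V)) (ContinuousLinearMap.inr ℝ ℝ V) x :=
    hasFDerivAt_prodMk_right t x
  have h2 : HasFDerivAt (w t) ((fderiv ℝ (fun z : ℝ × V => w z.1 z.2) (t, x)).comp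
      (ContinuousLinearMap.inr ℝ ℝ V)) x := (has_fd hw ht x).comp x h1
  unfold pd
  rw [h2.fderiv]
  rfl

theorem pd_cont (hw : ContDiffOn ℝ ∞ (fun z : ℝ × V => w z.1 z.2) (Ioi 0 ×ˢ univ)) (j : Fin 3) :
    ContinuousOn (fun z : ℝ × V => pd j (w z.1) z.2) (Ioi 0 ×ˢ univ) := by
  refine (dir_cont hw ((0 : ℝ), (Pi.single j 1 : V))).congr ?_
  rintro ⟨t, x⟩ ⟨ht, -⟩
  exact pd_joint hw ht j x

end

/-- Positive solutions of the heat equation. -/
structure Pw (w : ℝ → V → ℝ) (ε : ℝ) : Prop where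
  sm : ContDiffOn ℝ ∞ (fun z : ℝ × V => w z.1 z.2) (Ioi 0 ×ˢ univ)
  per : ∀ t, 0 < t → Per (w t)
  eq : ∀ t, 0 < t → ∀ x, HasDerivAt (fun s => w s x) (∑ j, pd j (pd j (w t)) x) t
  eps : 0 < ε
  pos : ∀ t, 0 < t → ∀ x, ε ≤ w t x

section
variable {w : ℝ → V → ℝ} {ε p : ℝ}

theorem Pw.sp (h : Pw w ε) {t : ℝ} (ht : 0 < t) : SP (w t) := ⟨slice h.sm ht, h.per t ht⟩

theorem Pw.pos' (h : Pw w ε) {t : ℝ} (ht : 0 < t) (x : V) : 0 < w t x :=
  h.eps.trans_le (h.pos t ht x)

/-- Powers of a positive smooth periodic function. -/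
theorem sp_rpow {f : V → ℝ} (hf : SP f) (h0 : ∀ x, 0 < f x) (q : ℝ) : SP fun x => f x ^ q :=
  ⟨hf.smooth.rpow_const_of_ne fun x => (h0 x).ne', fun j x => by
    show f (x + Pi.single j 1) ^ q = f x ^ q
    rw [hf.per j x]⟩

theorem pd_rpow {f : V → ℝ} (hf : SP f) (h0 : ∀ x, 0 < f x) (q : ℝ) (j : Fin 3) (x : V) :
    pd j (fun x => f x ^ q) x = q * f x ^ (q - 1) * pd j f x := by
  unfold pd
  have h := (hf.diff x).hasFDerivAt.rpow_const (p := q) (Or.inl (h0 x).ne')
  rw [h.fderiv]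
  rfl

/-- The dissipation. -/
noncomputable def Di (p : ℝ) (w : ℝ → V → ℝ) (t : ℝ) : ℝ :=
  ∫ x in cube, w t x ^ (p - 2) * ∑ j, pd j (w t) x ^ 2

theorem Pw.di_cont (h : Pw w ε) (p : ℝ) : ContinuousOn (Di p w) (Ioi 0) := by
  refine slice_cont (f := fun z : ℝ × V => w z.1 z.2 ^ (p - 2) * ∑ j, pd j (w z.1) z.2 ^ 2) ?_
  refine ContinuousOn.mul ?_ (continuousOn_finsetSum _ fun j _ => (pd_cont h.sm j).pow 2)
  exact h.sm.continuousOn.rpow_const fun z hz => Or.inl (h.pos' hz.1 z.2).ne'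

theorem di_nonneg {t : ℝ} (h0 : ∀ x, 0 ≤ w t x) : 0 ≤ Di p w t :=
  integral_nonneg fun x => mul_nonneg (Real.rpow_nonneg (h0 x) _)
    (Finset.sum_nonneg fun _ _ => sq_nonneg _)

/-- The energy identity in `L^p`. -/
theorem Pw.energy (h : Pw w ε) {a b : ℝ} (ha : 0 < a) (hab : a ≤ b) :
    p * (p - 1) * ∫ t in a..b, Di p w t
      = (∫ x in cube, w a x ^ p) - ∫ x in cube, w b x ^ p := by
  have hW : ContDiffOn ℝ ∞ (fun z : ℝ × V => (fun s x => w s x ^ p) z.1 z.2) (Ioi 0 ×ˢ univ) :=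
    h.sm.rpow_const_of_ne fun z hz => (h.pos' hz.1 z.2).ne'
  have hd : ∀ t, 0 < t → ∀ x, HasDerivAt (fun s => w s x ^ p)
      (p * w t x ^ (p - 1) * ∑ j, pd j (pd j (w t)) x) t := by
    intro t ht x
    have := (h.eq t ht x).rpow_const (p := p) (Or.inl (h.pos' ht x).ne')
    convert this using 1
    ring
  -- the integrand
  set f : ℝ × V → ℝ := fun z => p * w z.1 z.2 ^ (p - 1) * ∑ j, pd j (pd j (w z.1)) z.2 with hf
  have hfc : ContinuousOn f (Ioi 0 ×ˢ univ) := by
    refine (dir_cont (w := fun s x => w s x ^ p) hW ((1 : ℝ), (0 : V))).congr ?_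
    rintro ⟨t, x⟩ ⟨ht, -⟩
    exact (hd t ht x).unique (has_dt (w := fun s x => w s x ^ p) hW ht x)
  have hfi := int_box hfc (t := b) ha
  have e1 : ∀ x, w b x ^ p - w a x ^ p = ∫ s in Ioc a b, f (s, x) := by
    intro x
    have h1 := ftc (w := fun s x => w s x ^ p) hW ha hab x
    rw [← h1]
    refine setIntegral_congr_fun measurableSet_Ioc fun s hs => ?_
    exact (hd s (ha.trans hs.1) x).deriv
  have hb : 0 < b := ha.trans_le hab
  have ia : IntegrableOn (fun x => w a x ^ p) cube := (sp_rpow (h.sp ha) (h.pos' ha) p).int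
  have ib : IntegrableOn (fun x => w b x ^ p) cube := (sp_rpow (h.sp hb) (h.pos' hb) p).int
  have e2 : (∫ x in cube, w b x ^ p) - ∫ x in cube, w a x ^ p
      = ∫ x in cube, ∫ s in Ioc a b, f (s, x) := by
    rw [← integral_sub ib ia]
    exact integral_congr_ae (Eventually.of_forall fun x => e1 x)
  have e3 : ∫ x in cube, ∫ s in Ioc a b, f (s, x) = ∫ s in Ioc a b, ∫ x in cube, f (s, x) := by
    have ih' : Integrable f ((volume.restrict (Ioc a b)).prod (volume.restrict cube)) := by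
      rw [Measure.prod_restrict]
      exact hfi
    exact (integral_integral_swap (f := fun s x => f (s, x)) ih').symm
  have e4 : ∀ s ∈ Ioc a b, ∫ x in cube, f (s, x) = -(p * (p - 1) * Di p w s) := by
    intro s hs
    have hs0 : 0 < s := ha.trans hs.1
    have hsp := h.sp hs0
    have hpw := sp_rpow hsp (h.pos' hs0) (p - 1)
    have h1 := int_lap_mul hsp hpw
    have e5 : ∫ x in cube, f (s, x) = p * ∫ x in cube, lap (w s) x * w s x ^ (p - 1) := by
      rw [← integral_const_mul]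
      refine integral_congr_ae (Eventually.of_forall fun x => ?_)
      simp only [hf, lap]
      ring
    rw [e5, h1]
    have e6 : ∀ j : Fin 3, ∫ x in cube, pd j (w s) x * pd j (fun x => w s x ^ (p - 1)) x
        = (p - 1) * ∫ x in cube, w s x ^ (p - 2) * pd j (w s) x ^ 2 := by
      intro j
      rw [← integral_const_mul]
      refine integral_congr_ae (Eventually.of_forall fun x => ?_)
      show pd j (w s) x * pd j (fun x => w s x ^ (p - 1)) x
        = (p - 1) * (w s x ^ (p - 2) * pd j (w s) x ^ 2)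
      rw [pd_rpow hsp (h.pos' hs0)]
      have e7 : p - 1 - 1 = p - 2 := by ring
      rw [e7]
      ring
    simp_rw [e6]
    rw [← Finset.mul_sum]
    unfold Di
    have i1 : ∀ j : Fin 3, IntegrableOn (fun x => w s x ^ (p - 2) * pd j (w s) x ^ 2) cube := by
      intro j
      have h2 := (sp_rpow hsp (h.pos' hs0) (p - 2)).mul ((hsp.pd j).mul (hsp.pd j))
      refine h2.int.congr (Eventually.of_forall fun x => ?_)
      show w s x ^ (p - 2) * (pd j (w s) x * pd j (w s) x) = _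
      ring
    have e8 : ∀ x, w s x ^ (p - 2) * ∑ j, pd j (w s) x ^ 2
        = ∑ j, w s x ^ (p - 2) * pd j (w s) x ^ 2 := fun x => Finset.mul_sum _ _ _
    simp_rw [e8]
    rw [integral_finsetSum _ fun j _ => i1 j]
    ring
  rw [intervalIntegral.integral_of_le hab]
  have e9 : ∫ s in Ioc a b, ∫ x in cube, f (s, x) = -(p * (p - 1) * ∫ s in Ioc a b, Di p w s) := by
    rw [setIntegral_congr_fun measurableSet_Ioc e4, integral_neg, integral_const_mul]
  linarith [e2, e3, e9]

end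

/-- Hölder's inequality. -/
theorem holder_w {p ε : ℝ} (hp1 : 1 < p) (hp2 : p ≤ 2) (hε : 0 < ε) {f u : V → ℝ}
    (hf : Continuous f) (hu : Continuous u) (hu0 : ∀ x, ε ≤ u x) :
    ∫ x in cube, |f x| ^ p ≤ (∫ x in cube, u x ^ (p - 2) * f x ^ 2) ^ (p / 2)
      * (∫ x in cube, u x ^ p) ^ (1 - p / 2) := by
  have hp0 : 0 < p := by linarith
  have hup : ∀ x, 0 < u x := fun x => hε.trans_le (hu0 x)
  rcases hp2.eq_or_lt with rfl | hp2
  · rw [show (1 : ℝ) - 2 / 2 = 0 by norm_num, Real.rpow_zero, mul_one,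
      show (2 : ℝ) / 2 = 1 by norm_num, Real.rpow_one]
    refine le_of_eq (integral_congr_ae (Eventually.of_forall fun x => ?_))
    show |f x| ^ (2 : ℝ) = u x ^ ((2 : ℝ) - 2) * f x ^ 2
    rw [show (2 : ℝ) - 2 = 0 by norm_num, Real.rpow_zero, one_mul, Real.rpow_two, sq_abs]
  have hpq : (2 / p).HolderConjugate (2 / (2 - p)) := by
    rw [Real.holderConjugate_iff]
    refine ⟨?_, ?_⟩
    · rw [lt_div_iff₀ hp0]
      linarith
    · rw [inv_div, inv_div]
      ring
  haveI : IsFiniteMeasure ((volume : Measure V).restrict cube) := ⟨by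
    rw [Measure.restrict_apply_univ]
    exact isCompact_Icc.measure_lt_top⟩
  have hm : ∀ {g : V → ℝ} {q : ℝ}, Continuous g →
      MemLp g (ENNReal.ofReal q) (volume.restrict cube) := by
    intro g q hg
    obtain ⟨C, hC⟩ := (isCompact_Icc (a := (0 : V)) (b := 1)).exists_bound_of_continuousOn
      hg.continuousOn
    refine MemLp.of_bound hg.aestronglyMeasurable C ?_
    exact (ae_restrict_iff' measurableSet_Icc).2 (Eventually.of_forall fun x hx => hC x hx)
  have hF : Continuous fun x => (u x ^ (p - 2) * f x ^ 2) ^ (p / 2) := by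
    refine Continuous.rpow_const ?_ fun x => Or.inr (by positivity)
    exact (hu.rpow_const fun x => Or.inl (hup x).ne').mul (hf.pow 2)
  have hG : Continuous fun x => u x ^ (p * (1 - p / 2)) :=
    hu.rpow_const fun x => Or.inl (hup x).ne'
  have h1 := integral_mul_le_Lp_mul_Lq_of_nonneg (μ := volume.restrict cube) hpq
    (f := fun x => (u x ^ (p - 2) * f x ^ 2) ^ (p / 2)) (g := fun x => u x ^ (p * (1 - p / 2)))
    (Eventually.of_forall fun x => Real.rpow_nonneg (mul_nonneg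
      (Real.rpow_nonneg (hup x).le _) (sq_nonneg _)) _)
    (Eventually.of_forall fun x => Real.rpow_nonneg (hup x).le _) (hm hF) (hm hG)
  have e1 : ∀ x, (u x ^ (p - 2) * f x ^ 2) ^ (p / 2) * u x ^ (p * (1 - p / 2)) = |f x| ^ p := by
    intro x
    rw [Real.mul_rpow (Real.rpow_nonneg (hup x).le _) (sq_nonneg _), ← Real.rpow_mul (hup x).le]
    have e2 : (f x ^ 2) ^ (p / 2) = |f x| ^ p := by
      rw [← sq_abs, ← Real.rpow_two, ← Real.rpow_mul (abs_nonneg _)]
      congr 1
      ring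
    rw [e2, mul_right_comm, ← Real.rpow_add (hup x)]
    have e3 : (p - 2) * (p / 2) + p * (1 - p / 2) = 0 := by ring
    rw [e3, Real.rpow_zero, one_mul]
  have e4 : ∀ x, ((u x ^ (p - 2) * f x ^ 2) ^ (p / 2)) ^ (2 / p) = u x ^ (p - 2) * f x ^ 2 := by
    intro x
    rw [← Real.rpow_mul (mul_nonneg (Real.rpow_nonneg (hup x).le _) (sq_nonneg _))]
    have : p / 2 * (2 / p) = 1 := by field_simp
    rw [this, Real.rpow_one]
  have e5 : ∀ x, (u x ^ (p * (1 - p / 2))) ^ (2 / (2 - p)) = u x ^ p := by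
    intro x
    rw [← Real.rpow_mul (hup x).le]
    congr 1
    have : 2 - p ≠ 0 := by linarith
    field_simp
  simp_rw [e1, e4, e5] at h1
  refine h1.trans (le_of_eq ?_)
  congr 2
  · rw [one_div_div]
  · rw [one_div_div]
    ring

section
variable {w : ℝ → V → ℝ} {ε p : ℝ}

/-- The estimate at one time. -/
theorem Pw.at_time (h : Pw w ε) (hp1 : 1 < p) (hp2 : p ≤ 2) {t G : ℝ} (ht : 0 < t)
    (hG : ∫ x in cube, w t x ^ p ≤ G) :
    (∫ x in cube, ∑ j, |pd j (w t) x| ^ p) ^ (2 / p)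
      ≤ 3 ^ (2 / p) * G ^ ((2 - p) / p) * Di p w t := by
  have hp0 : 0 < p := by linarith
  have hsp := h.sp ht
  have hE0 : 0 ≤ ∫ x in cube, w t x ^ p :=
    integral_nonneg fun x => Real.rpow_nonneg (h.pos' ht x).le _
  have hG0 : 0 ≤ G := hE0.trans hG
  have hD0 : 0 ≤ Di p w t := di_nonneg fun x => (h.pos' ht x).le
  have i1 : ∀ j : Fin 3, IntegrableOn (fun x => w t x ^ (p - 2) * pd j (w t) x ^ 2) cube := by
    intro j
    have h2 := (sp_rpow hsp (h.pos' ht) (p - 2)).mul ((hsp.pd j).mul (hsp.pd j))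
    refine h2.int.congr (Eventually.of_forall fun x => ?_)
    show w t x ^ (p - 2) * (pd j (w t) x * pd j (w t) x) = _
    ring
  have hDj : ∀ j : Fin 3, ∫ x in cube, w t x ^ (p - 2) * pd j (w t) x ^ 2 ≤ Di p w t := by
    intro j
    unfold Di
    have i2 : IntegrableOn (fun x => w t x ^ (p - 2) * ∑ j, pd j (w t) x ^ 2) cube := by
      have h3 : IntegrableOn (fun x => ∑ j, w t x ^ (p - 2) * pd j (w t) x ^ 2) cube :=
        integrable_finsetSum _ fun j _ => i1 j
      refine h3.congr (Eventually.of_forall fun x => ?_)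
      exact (Finset.mul_sum _ _ _).symm
    refine setIntegral_mono (i1 j) i2 fun x => ?_
    refine mul_le_mul_of_nonneg_left ?_ (Real.rpow_nonneg (h.pos' ht x).le _)
    exact Finset.single_le_sum (f := fun j => pd j (w t) x ^ 2) (fun j _ => sq_nonneg _)
      (Finset.mem_univ j)
  have hj : ∀ j : Fin 3, ∫ x in cube, |pd j (w t) x| ^ p ≤ Di p w t ^ (p / 2)
      * G ^ (1 - p / 2) := by
    intro j
    have h1 := holder_w hp1 hp2 h.eps (hsp.pd j).cont hsp.cont (h.pos t ht)
    refine h1.trans ?_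
    have h2 : 0 ≤ ∫ x in cube, w t x ^ (p - 2) * pd j (w t) x ^ 2 :=
      integral_nonneg fun x => mul_nonneg (Real.rpow_nonneg (h.pos' ht x).le _) (sq_nonneg _)
    refine mul_le_mul (Real.rpow_le_rpow h2 (hDj j) (by positivity))
      (Real.rpow_le_rpow hE0 hG (by linarith)) (Real.rpow_nonneg hE0 _) (Real.rpow_nonneg hD0 _)
  have hc : ∀ j : Fin 3, IntegrableOn (fun x => |pd j (w t) x| ^ p) cube := fun j =>
    integrableOn_cube ((hsp.pd j).cont.abs.rpow_const fun _ => Or.inr hp0.le)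
  have hs : ∫ x in cube, ∑ j, |pd j (w t) x| ^ p ≤ 3 * (Di p w t ^ (p / 2) * G ^ (1 - p / 2)) := by
    rw [integral_finsetSum _ fun j _ => hc j]
    refine (Finset.sum_le_sum fun j _ => hj j).trans (le_of_eq ?_)
    rw [Finset.sum_const, Finset.card_univ, Fintype.card_fin, nsmul_eq_mul]
    norm_num
  have h0 : 0 ≤ ∫ x in cube, ∑ j, |pd j (w t) x| ^ p :=
    integral_nonneg fun x => Finset.sum_nonneg fun j _ => Real.rpow_nonneg (abs_nonneg _) _
  refine (Real.rpow_le_rpow h0 hs (by positivity)).trans (le_of_eq ?_)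
  rw [Real.mul_rpow (by norm_num) (mul_nonneg (Real.rpow_nonneg hD0 _) (Real.rpow_nonneg hG0 _)),
    Real.mul_rpow (Real.rpow_nonneg hD0 _) (Real.rpow_nonneg hG0 _), ← Real.rpow_mul hD0,
    ← Real.rpow_mul hG0]
  have e1 : p / 2 * (2 / p) = 1 := by field_simp
  have e2 : (1 - p / 2) * (2 / p) = (2 - p) / p := by field_simp
  rw [e1, e2, Real.rpow_one]
  ring

/-- The integrand is continuous in time. -/
theorem lhs_cont (hw : ContDiffOn ℝ ∞ (fun z : ℝ × V => w z.1 z.2) (Ioi 0 ×ˢ univ)) (hp : 0 < p) :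
    ContinuousOn (fun t => (∫ x in cube, ∑ j, |pd j (w t) x| ^ p) ^ (2 / p)) (Ioi 0) := by
  refine ContinuousOn.rpow_const ?_ fun t _ => Or.inr (by positivity)
  refine slice_cont (f := fun z : ℝ × V => ∑ j, |pd j (w z.1) z.2| ^ p) ?_
  exact continuousOn_finsetSum _ fun j _ => (pd_cont hw j).abs.rpow_const fun _ _ => Or.inr hp.le

theorem ii_of_cont {f : ℝ → ℝ} (hf : ContinuousOn f (Ioi 0)) {a b : ℝ} (ha : 0 < a) (hab : a ≤ b) :
    IntervalIntegrable f volume a b := by
  apply ContinuousOn.intervalIntegrable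
  rw [uIcc_of_le hab]
  exact hf.mono fun t ht => ha.trans_le ht.1

/-- The estimate for positive solutions. -/
theorem Pw.est (h : Pw w ε) (hp1 : 1 < p) (hp2 : p ≤ 2) {G : ℝ}
    (hG : ∀ t, 0 < t → ∫ x in cube, w t x ^ p ≤ G) {a b : ℝ} (ha : 0 < a) (hab : a ≤ b) :
    ∫ t in a..b, (∫ x in cube, ∑ j, |pd j (w t) x| ^ p) ^ (2 / p)
      ≤ 3 ^ (2 / p) / (p * (p - 1)) * G ^ (2 / p) := by
  have hp0 : 0 < p := by linarith
  have hpp : 0 < p * (p - 1) := mul_pos hp0 (by linarith)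
  have hE0 : 0 ≤ ∫ x in cube, w b x ^ p :=
    integral_nonneg fun x => Real.rpow_nonneg (h.pos' (ha.trans_le hab) x).le _
  have hG0 : 0 ≤ G := hE0.trans (hG b (ha.trans_le hab))
  have h1 : ∫ t in a..b, (∫ x in cube, ∑ j, |pd j (w t) x| ^ p) ^ (2 / p)
      ≤ ∫ t in a..b, 3 ^ (2 / p) * G ^ ((2 - p) / p) * Di p w t := by
    refine intervalIntegral.integral_mono_on hab (ii_of_cont (lhs_cont h.sm hp0) ha hab)
      ((ii_of_cont (h.di_cont p) ha hab).const_mul _) fun t ht => ?_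
    exact h.at_time hp1 hp2 (ha.trans_le ht.1) (hG t (ha.trans_le ht.1))
  rw [intervalIntegral.integral_const_mul] at h1
  have h2 : ∫ t in a..b, Di p w t ≤ G / (p * (p - 1)) := by
    rw [le_div_iff₀ hpp, mul_comm, h.energy ha hab]
    linarith [hG a ha]
  refine h1.trans ((mul_le_mul_of_nonneg_left h2 (by positivity)).trans (le_of_eq ?_))
  rcases hG0.eq_or_lt with h0 | h0
  · rw [← h0, Real.zero_rpow (by positivity : (2 / p) ≠ 0)]
    simp
  have e : G ^ ((2 - p) / p) * G = G ^ (2 / p) := by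
    nth_rewrite 2 [← Real.rpow_one G]
    rw [← Real.rpow_add h0]
    congr 1
    field_simp
    ring
  rw [← e]
  field_simp

end

theorem bm_pos {g : V → ℝ} (hg : BM g) {ε : ℝ} (hε : 0 < ε) : BM fun x => max (g x) 0 + ε := by
  obtain ⟨M, hM⟩ := hg.bd
  refine ⟨((hg.meas.aemeasurable.max aemeasurable_const).add_const ε).aestronglyMeasurable,
    |M| + ε, fun x hx => ?_⟩
  have h1 : 0 ≤ max (g x) 0 := le_max_right _ _
  rw [abs_of_nonneg (by linarith)]
  have h2 : max (g x) 0 ≤ |M| := max_le ((le_abs_self _).trans ((hM x hx).trans (le_abs_self M)))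
    (abs_nonneg M)
  linarith

theorem bm_neg {g : V → ℝ} (hg : BM g) : BM fun x => -g x := by
  obtain ⟨M, hM⟩ := hg.bd
  exact ⟨hg.meas.neg, M, fun x hx => by rw [abs_neg]; exact hM x hx⟩

theorem bm_int {g : V → ℝ} (hg : BM g) {p : ℝ} (hp : 0 < p) :
    IntegrableOn (fun x => |g x| ^ p) cube := by
  obtain ⟨M, hM⟩ := hg.bd
  have hfin : volume cube ≠ ⊤ := by rw [volume_cube]; exact ENNReal.one_ne_top
  refine Integrable.mono' (g := fun _ => M ^ p) (integrableOn_const hfin) ?_ ?_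
  · exact (hg.meas.norm.aemeasurable.pow_const p).aestronglyMeasurable
  · refine (ae_restrict_iff' measurableSet_Icc).2 (Eventually.of_forall fun x hx => ?_)
    rw [Real.norm_of_nonneg (Real.rpow_nonneg (abs_nonneg _) _)]
    exact Real.rpow_le_rpow (abs_nonneg _) (hM x hx) hp.le

theorem pos_mom {g : V → ℝ} (hg : BM g) {p ε : ℝ} (hp : 0 < p) (hε : 0 < ε) :
    ∫ x in cube, |max (g x) 0 + ε| ^ p ≤ 2 ^ p * ((∫ x in cube, |g x| ^ p) + ε ^ p) := by
  have h1 : ∀ x, |max (g x) 0 + ε| ^ p ≤ 2 ^ p * (|g x| ^ p + ε ^ p) := by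
    intro x
    have h0 : 0 ≤ max (g x) 0 := le_max_right _ _
    rw [abs_of_nonneg (by linarith)]
    refine (Real.rpow_le_rpow (by linarith) ?_ hp.le).trans (add_rpow_le (abs_nonneg _) hε.le hp)
    have := max_le (le_abs_self (g x)) (abs_nonneg (g x))
    linarith
  have hfin : volume cube ≠ ⊤ := by rw [volume_cube]; exact ENNReal.one_ne_top
  have hc : IntegrableOn (fun _ : V => ε ^ p) cube := integrableOn_const hfin
  have i3 : IntegrableOn (fun x => 2 ^ p * (|g x| ^ p + ε ^ p)) cube :=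
    ((bm_int hg hp).add hc).const_mul (2 ^ p)
  have h2 := setIntegral_mono (bm_int (bm_pos hg hε) hp) i3 (fun x => h1 x)
  refine h2.trans (le_of_eq ?_)
  rw [integral_const_mul, integral_add (bm_int hg hp) hc, setIntegral_const, cube_real, one_smul]

/-- **Piece SqF.** -/
theorem sqF (hK : StmHeatK) : StmSqF := by
  obtain ⟨k1, k2, k3, k4, k5, k6, -⟩ := hK
  intro p hp1 hp2
  have hp0 : 0 < p := by linarith
  have hpp : 0 < p * (p - 1) := mul_pos hp0 (by linarith)
  set C₁ : ℝ := 3 ^ (2 / p) / (p * (p - 1)) with hC₁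
  have hC₁0 : 0 < C₁ := by positivity
  set C : ℝ := (2 : ℝ) ^ (2 : ℝ) * (2 ^ (2 / p) * (2 * (C₁ * (2 : ℝ) ^ (2 : ℝ)))) with hC
  refine ⟨C, by positivity, ?_⟩
  intro g hg a b ha hab
  have hpw : ∀ (g : V → ℝ), BM g → ∀ ε : ℝ, 0 < ε →
      Pw (fun t => heat t (fun x => max (g x) 0 + ε)) ε := by
    intro g hg ε hε
    have hb := bm_pos hg hε
    exact ⟨k1 _ hb, k2 _ hb, k3 _ hb, hε, fun t ht x => k4 _ hb ε
      (fun x _ => by have : 0 ≤ max (g x) 0 := le_max_right _ _; linarith) t ht x⟩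
  have hest : ∀ (g : V → ℝ), BM g → ∀ ε : ℝ, 0 < ε →
      ∫ t in a..b, (∫ x in cube, ∑ j, |pd j (heat t (fun x => max (g x) 0 + ε)) x| ^ p) ^ (2 / p)
        ≤ C₁ * (2 ^ p * ((∫ x in cube, |g x| ^ p) + ε ^ p)) ^ (2 / p) := by
    intro g hg ε hε
    have hb := bm_pos hg hε
    refine (hpw g hg ε hε).est hp1 hp2 (fun t ht => ?_) ha hab
    have h1 := (k5 _ hb t ht p hp1.le).trans (pos_mom hg hp0 hε)
    refine le_trans (le_of_eq ?_) h1
    refine integral_congr_ae (Eventually.of_forall fun x => ?_)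
    show heat t (fun x => max (g x) 0 + ε) x ^ p = |heat t (fun x => max (g x) 0 + ε) x| ^ p
    rw [abs_of_pos ((hpw g hg ε hε).pos' ht x)]
  -- the estimate with ε
  have key : ∀ ε : ℝ, 0 < ε →
      ∫ t in a..b, (∫ x in cube, ∑ j, |pd j (heat t g) x| ^ p) ^ (2 / p)
        ≤ C * ((∫ x in cube, |g x| ^ p) + ε ^ p) ^ (2 / p) := by
    intro ε hε
    set g₁ : V → ℝ := fun x => max (g x) 0 + ε with hg₁
    set g₂ : V → ℝ := fun x => max (-g x) 0 + ε with hg₂
    have b₁ : BM g₁ := bm_pos hg hε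
    have b₂ : BM g₂ := bm_pos (bm_neg hg) hε
    have P₁ := hpw g hg ε hε
    have P₂ := hpw _ (bm_neg hg) ε hε
    have hgg : (fun y => g₁ y - g₂ y) = g := by
      funext y
      simp only [hg₁, hg₂]
      have := max_zero_sub_max_neg_zero_eq_self (g y)
      linarith
    have hpd : ∀ t, 0 < t → ∀ j x, pd j (heat t g) x = pd j (heat t g₁) x - pd j (heat t g₂) x := by
      intro t ht j x
      have e1 : heat t g = fun y => heat t g₁ y - heat t g₂ y := by
        funext y
        rw [← k6 g₁ g₂ b₁ b₂ t ht y, hgg]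
      rw [e1]
      unfold pd
      have h1 := ((P₁.sp ht).diff x).hasFDerivAt.sub ((P₂.sp ht).diff x).hasFDerivAt
      have h2 : HasFDerivAt (fun y => heat t g₁ y - heat t g₂ y) _ x := h1
      rw [h2.fderiv]
      rfl
    have hN : 0 ≤ (∫ x in cube, |g x| ^ p) + ε ^ p := by
      have : 0 ≤ ∫ x in cube, |g x| ^ p := integral_nonneg fun x => Real.rpow_nonneg (abs_nonneg _) _
      positivity
    have hpt : ∀ t ∈ Icc a b, (∫ x in cube, ∑ j, |pd j (heat t g) x| ^ p) ^ (2 / p)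
        ≤ (2 : ℝ) ^ (2 : ℝ) * (2 ^ (2 / p)
          * ((∫ x in cube, ∑ j, |pd j (heat t g₁) x| ^ p) ^ (2 / p)
          + (∫ x in cube, ∑ j, |pd j (heat t g₂) x| ^ p) ^ (2 / p))) := by
      intro t ht
      have ht0 : 0 < t := ha.trans_le ht.1
      have c1 : ∀ j : Fin 3, IntegrableOn (fun x => |pd j (heat t g₁) x| ^ p) cube := fun j =>
        integrableOn_cube (((P₁.sp ht0).pd j).cont.abs.rpow_const fun _ => Or.inr hp0.le)
      have c2 : ∀ j : Fin 3, IntegrableOn (fun x => |pd j (heat t g₂) x| ^ p) cube := fun j =>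
        integrableOn_cube (((P₂.sp ht0).pd j).cont.abs.rpow_const fun _ => Or.inr hp0.le)
      have s1 : IntegrableOn (fun x => ∑ j, |pd j (heat t g₁) x| ^ p) cube :=
        integrable_finsetSum _ fun j _ => c1 j
      have s2 : IntegrableOn (fun x => ∑ j, |pd j (heat t g₂) x| ^ p) cube :=
        integrable_finsetSum _ fun j _ => c2 j
      have h1 : ∀ x, ∑ j, |pd j (heat t g) x| ^ p ≤ 2 ^ p * (∑ j, |pd j (heat t g₁) x| ^ p
          + ∑ j, |pd j (heat t g₂) x| ^ p) := by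
        intro x
        rw [← Finset.sum_add_distrib, Finset.mul_sum]
        refine Finset.sum_le_sum fun j _ => ?_
        rw [hpd t ht0]
        exact (Real.rpow_le_rpow (abs_nonneg _) (abs_sub _ _) hp0.le).trans
          (add_rpow_le (abs_nonneg _) (abs_nonneg _) hp0)
      have h0 : ∀ h : V → ℝ, 0 ≤ ∫ x in cube, ∑ j, |pd j h x| ^ p := fun h =>
        integral_nonneg fun x => Finset.sum_nonneg fun j _ => Real.rpow_nonneg (abs_nonneg _) _
      have s0 : IntegrableOn (fun x => ∑ j, |pd j (heat t g) x| ^ p) cube := by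
        have hsp : SP (heat t g) := ⟨slice (w := fun t => heat t g) (k1 g hg) ht0, k2 g hg t ht0⟩
        exact integrable_finsetSum _ fun j _ =>
          integrableOn_cube ((hsp.pd j).cont.abs.rpow_const fun _ => Or.inr hp0.le)
      have h2 : ∫ x in cube, ∑ j, |pd j (heat t g) x| ^ p
          ≤ 2 ^ p * ((∫ x in cube, ∑ j, |pd j (heat t g₁) x| ^ p)
            + ∫ x in cube, ∑ j, |pd j (heat t g₂) x| ^ p) := by
        have i3 : IntegrableOn (fun x => 2 ^ p * (∑ j, |pd j (heat t g₁) x| ^ p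
            + ∑ j, |pd j (heat t g₂) x| ^ p)) cube := (s1.add s2).const_mul (2 ^ p)
        have h3 := setIntegral_mono s0 i3 (fun x => h1 x)
        refine h3.trans (le_of_eq ?_)
        rw [integral_const_mul, integral_add s1 s2]
      have h4 := Real.rpow_le_rpow (h0 _) h2 (by positivity : 0 ≤ 2 / p)
      rw [Real.mul_rpow (by positivity) (add_nonneg (h0 _) (h0 _)), ← Real.rpow_mul (by norm_num)]
        at h4
      have e5 : p * (2 / p) = 2 := by field_simp
      rw [e5] at h4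
      exact h4.trans (mul_le_mul_of_nonneg_left (add_rpow_le (h0 _) (h0 _) (by positivity))
        (by positivity))
    have I0 := ii_of_cont (lhs_cont (w := fun t => heat t g) (k1 g hg) hp0) ha hab
    have I1 := ii_of_cont (lhs_cont (w := fun t => heat t g₁) P₁.sm hp0) ha hab
    have I2 := ii_of_cont (lhs_cont (w := fun t => heat t g₂) P₂.sm hp0) ha hab
    have h6 := intervalIntegral.integral_mono_on hab I0
      (((I1.add I2).const_mul (2 ^ (2 / p))).const_mul ((2 : ℝ) ^ (2 : ℝ))) hpt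
    refine h6.trans ?_
    rw [intervalIntegral.integral_const_mul, intervalIntegral.integral_const_mul,
      intervalIntegral.integral_add I1 I2]
    have h7 := hest g hg ε hε
    have h8 := hest _ (bm_neg hg) ε hε
    simp_rw [abs_neg] at h8
    have e9 : (2 ^ p * ((∫ x in cube, |g x| ^ p) + ε ^ p)) ^ (2 / p)
        = (2 : ℝ) ^ (2 : ℝ) * ((∫ x in cube, |g x| ^ p) + ε ^ p) ^ (2 / p) := by
      rw [Real.mul_rpow (by positivity) hN, ← Real.rpow_mul (by norm_num)]
      congr 2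
      field_simp
    rw [e9] at h7 h8
    have h10 := add_le_add h7 h8
    refine (mul_le_mul_of_nonneg_left (mul_le_mul_of_nonneg_left h10 (by positivity))
      (by positivity)).trans (le_of_eq ?_)
    rw [hC]
    ring
  -- the limit
  have hlim : Tendsto (fun ε : ℝ => C * ((∫ x in cube, |g x| ^ p) + ε ^ p) ^ (2 / p)) (𝓝[>] 0)
      (𝓝 (C * ((∫ x in cube, |g x| ^ p) + 0 ^ p) ^ (2 / p))) := by
    have hc : Continuous fun ε : ℝ => C * ((∫ x in cube, |g x| ^ p) + ε ^ p) ^ (2 / p) := by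
      refine continuous_const.mul (Continuous.rpow_const ?_ fun _ => Or.inr (by positivity))
      exact continuous_const.add (Real.continuous_rpow_const hp0.le)
    exact (hc.tendsto 0).mono_left nhdsWithin_le_nhds
  rw [Real.zero_rpow hp0.ne', add_zero] at hlim
  exact ge_of_tendsto hlim (by
    filter_upwards [self_mem_nhdsWithin] with ε hε
    exact key ε hε)

end Pool.Agent.Run7.h980.WQ
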